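import Pool.Agent.P.MP_323ce2_nt.QF.St

/-! Common definitions and the interfaces between the layers of the bound for the Mertens function. -/

namespace Pool.Agent.P.MP_323ce2_nt.QX

open Finset Pool.Agent.P.MP_26a8c3_nt.QO Pool.Agent.P.MP_26a8c3_nt.QA
open Pool.Agent.P.MP_323ce2_nt.QF
open scoped Classical

noncomputable section

/-- one short piece -/
def F1 (S : Finset O) (φ : O → ℝ) (m : O) : ℂ := ∑ p ∈ S, (φ p : ℂ) * psi p m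

/-- a product of short pieces -/
def FF (I : Finset ℕ) (S : ℕ → Finset O) (φ : O → ℝ) (m : O) : ℂ := ∏ i ∈ I, F1 (S i) φ m

/-- the pieces are disjoint sets of primary primes prime to `Q`, of norms in `[lo, P]` -/
structure Pc (Q : O) (lo P : ℝ) (I : Finset ℕ) (S : ℕ → Finset O) (φ : O → ℝ) : Prop where
  pr : ∀ i ∈ I, ∀ p ∈ S i, Prime p ∧ Primary p ∧ IsCoprime p Q ∧ lo ≤ N p ∧ (N p : ℝ) ≤ P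
  dj : ∀ i ∈ I, ∀ j ∈ I, i ≠ j → Disjoint (S i) (S j)
  w0 : ∀ p, 0 ≤ φ p
  w1 : ∀ p, φ p ≤ 1

/-- exceptional rows: some twist modulo `Q` is principal -/
def EX (Q m : O) : Prop := ∃ ν, IsNu Q ν ∧ Exc Q ν m

/-- nonzero non-exceptional rows of norm at most `M` -/
def Rows (Q : O) (M : ℝ) : Finset O := (ball M).filter fun m => m ≠ 0 ∧ ¬ EX Q m

end

/-- the second moment of a Moebius sum times short pieces -/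
def S_T1 : Prop :=
  ∃ κ : ℕ, ∀ Q : O, Q ≠ 0 → 36 ∣ Q → ∀ ε η : ℝ, 0 < ε → 0 < η → ∀ J : ℕ, ∃ (C : ℝ) (K : ℕ), 0 < C ∧
    ∀ (ν : O → ℂ) (Z M X lo P t : ℝ) (I : Finset ℕ) (S : ℕ → Finset O) (φ : O → ℝ), IsNu Q ν →
      1 ≤ M → M ≤ Z → 0 < X → X ≤ Z → 1 ≤ P → P ≤ Z → Z ^ η ≤ lo → P ^ 4 ≤ (lo / 4) ^ 5 →
      Pc Q lo P I S φ → #I ≤ J → I = ∅ ∨ P ^ (4 * #I) ≤ X →
      ∑ m ∈ (ball M).erase 0, ‖FF I S φ m‖ ^ 2 * ‖A ν 1 m X t‖ ^ 2 ≤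
        C * (1 + |t|) ^ K * Z ^ ε * P ^ κ * ((M + X * P ^ (2 * #I)) * (X * P ^ #I))

/-- the amplified second moment of a Moebius sum -/
def S_Up : Prop :=
  ∀ Q : O, Q ≠ 0 → 36 ∣ Q → ∀ ε : ℝ, 0 < ε → ∃ (C : ℝ) (K : ℕ), 0 < C ∧
    ∀ (ν : O → ℂ) (Z M X t : ℝ), IsNu Q ν → 1 ≤ M → M ≤ Z → 0 < X → X ≤ Z →
      ∑ m ∈ (ball M).erase 0, ‖A ν 1 m X t‖ ^ 2 ≤
        C * (1 + |t|) ^ K * Z ^ ε * ((M + M ^ (1 / 6 : ℝ) * X ^ (5 / 6 : ℝ)) * X)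

/-- the fourth moment of plain sums times short pieces -/
def S_II : Prop :=
  ∃ κ : ℕ, ∀ Q : O, Q ≠ 0 → 36 ∣ Q → ∀ ε η : ℝ, 0 < ε → 0 < η → ∀ J : ℕ, ∃ (C : ℝ) (K : ℕ), 0 < C ∧
    ∀ (ν : O → ℂ) (Z M Y₁ Y₂ lo P t₁ t₂ : ℝ) (I : Finset ℕ) (S : ℕ → Finset O) (φ : O → ℝ),
      IsNu Q ν → 1 ≤ M → M ≤ Z → 0 < Y₁ → Y₁ ≤ Z → 0 < Y₂ → Y₂ ≤ Z → 1 ≤ P → P ≤ Z →
      Z ^ η ≤ lo → Pc Q lo P I S φ → #I ≤ J →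
      ∑ m ∈ Rows Q M, ‖FF I S φ m‖ ^ 2 * ‖Lm ν m Y₁ t₁‖ ^ 2 * ‖Lm ν m Y₂ t₂‖ ^ 2 ≤
        C * (1 + |t₁| + |t₂|) ^ K * Z ^ ε * P ^ κ *
          ((M + P ^ #I * (M * max 1 (min Y₁ √M)) ^ (2 / 3 : ℝ)) * (Y₁ * Y₂ * P ^ #I))

/-- the pieces, the pointwise bounds from the zeros of one row, and two witnesses at every cut -/
def S_Row : Prop :=
  ∀ Q : O, Q ≠ 0 → 36 ∣ Q → ∀ ε η : ℝ, 0 < ε → 0 < η → ∀ J : ℕ, ∃ C : ℝ, 1 ≤ C ∧ ∀ Z P : ℝ,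
    C ≤ Z → Z ^ η ≤ P → P ≤ Z → ∃ (lo : ℝ) (S : ℕ → Finset O) (φ : O → ℝ),
      Pc Q lo P (range J) S φ ∧ P ≤ Z ^ ε * lo ∧ (∀ i < J, P ≤ Z ^ ε * ∑ p ∈ S i, φ p) ∧
      ∀ m ∈ Rows Q Z, ∃ β : ℝ, 1 / 2 ≤ β ∧ β ≤ 1 ∧ (∀ i < J, ‖F1 (S i) φ m‖ ≤ Z ^ ε * P ^ β) ∧
        (∀ k : O, k ≠ 0 → (N k : ℝ) ≤ Z ^ 10 → ∀ X : ℝ, 0 < X → X ≤ Z ^ 2 →
          ‖A (cop Q) 1 (m * k ^ 6) X 0‖ ≤ Z ^ ε * X ^ β) ∧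
        (β ≤ 1 / 2 + ε ∨ ∃ t : ℝ, |t| ≤ Z ^ ε ∧ ∀ U : ℝ, Z ^ ε ≤ U → U ≤ Z ^ 3 →
          ∃ X₁ X₂ : ℝ, Z ^ (-ε) ≤ X₁ ∧ X₁ ≤ U ∧ Z ^ (-ε) ≤ X₂ ∧ X₂ ≤ Z ^ 3 ∧
            U ≤ Z ^ ε * (X₁ * X₂) ∧ X₁ ^ β ≤ Z ^ ε * ‖A (cop Q) 1 m X₁ t‖ ∧
            X₂ ^ β ≤ Z ^ ε * ‖Lm (cop Q) m X₂ t‖)

/-- the first moment: main term, dual side, and the majorant of the non-exceptional rows -/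
def S_FM : Prop :=
  ∃ κ : ℕ, ∀ θ : ℝ, 5 / 6 ≤ θ → θ ≤ 9 / 10 → ∀ J : ℕ, 1 ≤ J → ∃ q : ℕ, 0 < q ∧ 36 ∣ q ∧
    ∀ ε : ℝ, 0 < ε → ∃ δ C : ℝ, 0 < δ ∧ 1 ≤ C ∧
    ∀ (Z X lo P B B₀ : ℝ) (S : ℕ → Finset O) (φ β Λ : O → ℝ) (Φ : ℕ → O → ℝ),
      C ≤ Z → X = Z ^ (5 / 4 : ℝ) → 1 ≤ P → Z ^ (21 / 100 : ℝ) ≤ P ^ J →
      P ^ J ≤ Z ^ (22 / 100 : ℝ) → Pc q lo P (range J) S φ → P ≤ Z ^ δ * lo →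
      (∀ i < J, P ≤ Z ^ δ * ∑ p ∈ S i, φ p) → 1 ≤ B₀ → 0 ≤ B →
      (∀ X' : ℝ, 0 < X' → X' ≤ X → ‖A (cop q) 1 1 X' 0‖ ≤ B * X' ^ θ) →
      (∀ m ∈ Rows q Z, 1 / 2 ≤ β m ∧ β m ≤ 1 ∧ 1 ≤ Λ m ∧ (∀ i < J, √P ≤ Φ i m) ∧
        ∀ k : O, k ≠ 0 → (N k : ℝ) ≤ Z ^ 10 →
          (∀ X' : ℝ, 0 < X' → X' ≤ X → ‖A (cop q) 1 (m * k ^ 6) X' 0‖ ≤ B₀ * X' ^ β m) ∧
          (∀ i < J, ‖F1 (S i) φ (m * k ^ 6)‖ ≤ B₀ * Φ i m) ∧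
          ∀ Y : ℝ, 0 < Y → Y ≤ Z → ‖Lm (cop q) (m * k ^ 6) Y 0‖ ≤ B₀ * Λ m * √Y) →
      ‖A (cop q) 1 1 X 0‖ ≤ B / 2 * X ^ θ + C * Z ^ ε * P ^ κ *
        (X ^ (11 / 12 : ℝ) / (P ^ J) ^ (1 / 4 : ℝ) +
          B₀ ^ (J + 2) * Z ^ (-(2 / 3) : ℝ) * ∑ k ∈ (ball Z).erase 0, (N k : ℝ) *
            ∑ m ∈ Rows q (Z / (N k : ℝ) ^ 6), X ^ β m * (∏ i ∈ range J, Φ i m) * Λ m)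

/-- the linear programme of the exponents -/
def S_LP (d a : ℝ) : Prop :=
  ∀ e μ b q l : ℝ, 0 ≤ e → 0 ≤ μ → μ ≤ 1 → 0 ≤ b → b ≤ 1 / 2 → 0 ≤ q → q ≤ b + e →
    ∃ k : ℝ, 0 ≤ k ∧ k ≤ 2 ∧ ∀ u w s : ℝ, k - e ≤ u + w → u ≤ k + e → 0 ≤ s → 4 * l ≤ s →
      4 * b * w ≤ s →
      (u ≤ μ → 2 * b * u + 2 * q * min d (min ((μ - u) / 2) (u / 4)) ≤ s) →
      (μ ≤ u → 2 * b * u - 5 / 6 * (u - μ) ≤ s) →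
      2 * l + 2 * b * w + 2 * q * min d (max 0 (μ - 2 * w) / 3) ≤ s →
      l + 5 / 4 * b + q * d + μ + (1 - μ) / 3 ≤ 1 + a + s + 20 * e

lemma mem_Rows {Q m : O} {M : ℝ} : m ∈ Rows Q M ↔ (N m : ℝ) ≤ M ∧ m ≠ 0 ∧ ¬ EX Q m := by
  simp [Rows, mem_ball]

lemma Pc.mono {Q : O} {lo P : ℝ} {I I' : Finset ℕ} {S : ℕ → Finset O} {φ : O → ℝ}
    (h : Pc Q lo P I S φ) (hI : I' ⊆ I) : Pc Q lo P I' S φ :=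
  ⟨fun i hi => h.pr i (hI hi), fun i hi j hj => h.dj i (hI hi) j (hI hj), h.w0, h.w1⟩

end Pool.Agent.P.MP_323ce2_nt.QX
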