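import Pool.Agent.P.MP_323ce2_nt.QX.Asm
import Pool.Agent.P.MP_323ce2_nt.QW.All
import Pool.Agent.P.MP_323ce2_nt.Q1.All
import Pool.Agent.P.MP_323ce2_nt.QD.II
import Pool.Agent.P.MP_323ce2_nt.QM.All

/-! The bound for the Mertens function, without hypotheses. -/

namespace Pool.Agent.P.MP_323ce2_nt.QX

theorem mertens : ∃ D : ℝ, ∀ x : ℝ, 1 ≤ x → |QZ.Mf x| ≤ D * x ^ (4371 / 5000 : ℝ) :=
  asm (Q1.t1 MP_26a8c3_nt.QO.alg QW.vd) QD.ii (QM.fm QW.vd)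

end Pool.Agent.P.MP_323ce2_nt.QX
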