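import Pool.Agent.P.MP_323ce2_nt.QX.St
import Pool.Agent.P.MP_26a8c3_nt.QB.Rx

/-! Removal of a coprimality condition from plain sums and from pieces. -/

namespace Pool.Agent.P.MP_323ce2_nt.QX

open Finset Pool.Agent.P.MP_26a8c3_nt Pool.Agent.P.MP_26a8c3_nt.QO Pool.Agent.P.MP_26a8c3_nt.QA
open Pool.Agent.P.MP_323ce2_nt.QF Pool.Agent.P.MP_323ce2_nt.QZ
open scoped Classical

namespace Br

lemma psi_six_mul {n : O} (hn : n ≠ 0) (m k : O) : psi n (m * k ^ 6) = psi n m * cop n k := by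
  rw [psi_mul, psi_pow, psi_six hn]

lemma split (ν : O → ℂ) (m : O) {k : O} (hk : k ≠ 0) (c : O) :
    uL (ph ν (m * k ^ 6)) c = ∑ d ∈ pdiv k, if d ∣ c then mu d * uL (ph ν m) c else 0 := by
  by_cases hc : Primary c
  · have e : (pdiv c).filter (· ∣ k) = (pdiv k).filter (· ∣ c) := by
      ext d
      rw [mem_filter, mem_filter, mem_pdiv hc.ne_zero, mem_pdiv hk]
      tauto
    rw [← sum_filter, ← sum_mul, ← e, mu_sum hc, uL, uL, if_pos hc, if_pos hc, ph, ph,
      psi_six_mul hc.ne_zero]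
    ring
  · simp [uL, hc]

lemma expand {Q : O} {ν : O → ℂ} (hν : IsNu Q ν) (m : O) {k : O} (hk : k ≠ 0) {X : ℝ}
    (hX : 0 < X) (t : ℝ) :
    ‖Lm ν (m * k ^ 6) X t‖ ≤ ∑ d ∈ pdiv k, ‖Lm ν m (X / N d) t‖ := by
  have hφ := mul1_ph hν m
  rw [Lm, Wsum]
  simp_rw [split ν m hk, sum_mul]
  rw [Summable.tsum_finsetSum fun d _ => QB.summable_Wc (fun c => ?_) hX t]
  · refine norm_sum_le_of_le _ fun d hd => ?_
    have hd1 := ((mem_pdiv hk).1 hd).1
    have := QB.Rx.Wsum_dvd hd1.ne_zero (z := mu d * ph ν m d) (v := uL (ph ν m))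
      (u := fun c => if d ∣ c then mu d * uL (ph ν m) c else 0)
      (fun c hc => if_neg hc) (fun c => ?_) (if_neg fun h => Primary.ne_zero h rfl) hX t
    · rw [Wsum] at this
      rw [this, norm_mul]
      exact mul_le_of_le_one_left (norm_nonneg _)
        (QB.Rx.norm_coef (QB.norm_mul_le_one (norm_mu_le d) (hφ.le d)) hd1.ne_zero t)
    · rw [if_pos (dvd_mul_right d c), uL, uL]
      by_cases hc : Primary c
      · rw [if_pos hc, if_pos (hd1.mul hc), hφ.mul d c hd1 hc, mul_assoc]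
      · rw [if_neg hc, if_neg fun h => hc (h.of_mul hd1), mul_zero, mul_zero]
  · split_ifs
    · exact QB.norm_mul_le_one (norm_mu_le d) (hφ.uL c)
    · simp

end Br

theorem pBrL : S_BrL := by
  intro ε hε
  obtain ⟨C, hC, H⟩ := dv_le hε
  refine ⟨C, hC, fun ν Q m k Z Λ hν hk hΛ h Y hY hZ => (Br.expand hν m hk hY 0).trans ?_⟩
  refine (sum_le_card_nsmul _ _ (Λ * √Y) fun d hd => ?_).trans ?_
  · have hd0 := ((mem_pdiv hk).1 hd).1.ne_zero
    have h1 : Y / N d ≤ Y := div_le_self hY.le (one_le_N hd0)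
    exact (h _ (div_pos hY (N_pos_real hd0)) (h1.trans hZ)).trans
      (mul_le_mul_of_nonneg_left (Real.sqrt_le_sqrt h1) hΛ)
  · rw [nsmul_eq_mul, mul_assoc (C * _)]
    exact mul_le_mul_of_nonneg_right (H k hk) (by positivity)

theorem pBrF : S_BrF := by
  intro ε hε
  obtain ⟨C, hC, H⟩ := card_dvd_le hε
  refine ⟨C, hC, fun S φ m k hk hS => ?_⟩
  have e : F1 S φ (m * k ^ 6) =
      F1 S φ m - ∑ p ∈ S.filter (· ∣ k), (φ p : ℂ) * psi p m := by
    rw [F1, F1, sum_filter, ← sum_sub_distrib]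
    refine sum_congr rfl fun p hp => ?_
    rw [Br.psi_six_mul (hS p hp).1.ne_zero, cop_prime (hS p hp).1]
    split_ifs <;> ring
  rw [e]
  refine (norm_sub_le _ _).trans (add_le_add le_rfl ((norm_sum_le _ _).trans ?_))
  refine (sum_le_card_nsmul _ _ 1 fun p hp => ?_).trans ?_
  · obtain ⟨-, -, h0, h1⟩ := hS p (mem_filter.1 hp).1
    exact QB.norm_mul_le_one (by rwa [Complex.norm_real, Real.norm_of_nonneg h0]) (norm_psi_le p m)
  · rw [nsmul_eq_mul, mul_one]
    exact H k _ hk fun d hd => (mem_filter.1 hd).2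

end Pool.Agent.P.MP_323ce2_nt.QX
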