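import Pool.Agent.P.MP_323ce2_nt.QX.St

/-! The size of the plain sums of a row is attained at one scale. -/

namespace Pool.Agent.P.MP_323ce2_nt.QX

open Finset Pool.Agent.P.MP_26a8c3_nt Pool.Agent.P.MP_26a8c3_nt.QO Pool.Agent.P.MP_26a8c3_nt.QA
open Pool.Agent.P.MP_323ce2_nt.QF Pool.Agent.P.MP_323ce2_nt.QZ
open scoped Classical

namespace Lam

lemma low : ∃ c : ℝ, 0 ≤ c ∧ ∀ φ : O → ℂ, Mul1 φ →
    Real.exp (-c ^ 2) / 2 ≤ ‖Wsum (uL φ) (Real.exp (-c)) 0‖ := by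
  have hK := one_le_KO
  have hl : 0 ≤ Real.log (2 * KO) := Real.log_nonneg (by linarith)
  refine ⟨3 / 4 + Real.log (2 * KO), by linarith, fun φ hφ => ?_⟩
  set c := 3 / 4 + Real.log (2 * KO) with hc
  have hs := (QB.summable_W1 hφ.uL (Real.exp_pos (-c)) 0).of_norm
  have h1 : ‖uL φ 1 * W (Real.exp (-c)) 0 (nr 1)‖ = Real.exp (-c ^ 2) := by
    rw [norm_mul, norm_W, uL, if_pos primary_one, hφ.one, nr_eq one_ne_zero]; simp
  have h2 : ‖∑' n : O, if n = 1 then 0 else uL φ n * W (Real.exp (-c)) 0 (nr n)‖ ≤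
      Real.exp (-c ^ 2) / (2 * KO) * KO := by
    refine tsum_of_norm_bounded (summable_KO.hasSum.mul_left _) fun n => ?_
    have hp : 0 ≤ Real.exp (-c ^ 2) / (2 * KO) * nr n ^ (-(3 / 2) : ℝ) := by
      have := nr_pos n; positivity
    split_ifs with h
    · simpa using hp
    by_cases hn : Primary n
    · have hN : (2 : ℝ) ≤ nr n := by
        have a1 := N_pos hn.ne_zero
        have a2 : N n ≠ 1 := fun e => h (hn.eq_one_of_isUnit (isUnit_iff_N.2 e))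
        rw [nr_eq hn.ne_zero]; exact_mod_cast (by omega : 2 ≤ N n)
      have hL : 1 / 2 ≤ Real.log (nr n) :=
        le_trans (by linarith [Real.log_two_gt_d9]) (Real.log_le_log two_pos hN)
      rw [norm_mul]
      refine (mul_le_of_le_one_left (norm_nonneg _) (hφ.uL n)).trans ?_
      rw [norm_W, Real.log_exp, Real.rpow_def_of_pos (nr_pos n), div_eq_mul_inv,
        ← Real.exp_log (by linarith : 0 < 2 * KO), ← Real.exp_neg, ← Real.exp_add, ← Real.exp_add,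
        Real.exp_le_exp]
      nlinarith [sq_nonneg (Real.log (nr n)), mul_nonneg hl (sub_nonneg.2 hL)]
    · simpa [uL, hn] using hp
  have e : Real.exp (-c ^ 2) / (2 * KO) * KO = Real.exp (-c ^ 2) / 2 := by field_simp
  rw [Wsum, hs.tsum_eq_add_tsum_ite 1]
  have h3 := norm_add_le (uL φ 1 * W (Real.exp (-c)) 0 (nr 1) +
    ∑' n : O, if n = 1 then 0 else uL φ n * W (Real.exp (-c)) 0 (nr n))
    (-∑' n : O, if n = 1 then 0 else uL φ n * W (Real.exp (-c)) 0 (nr n))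
  rw [add_neg_cancel_right, norm_neg, h1] at h3
  linarith

end Lam

theorem pLam : S_Lam := by
  obtain ⟨c, hc, H⟩ := Lam.low
  have hK := one_le_KO
  have hy := Real.exp_pos (-c)
  have hy1 : Real.exp (-c) ≤ 1 := Real.exp_le_one_iff.2 (by linarith)
  set c₀ : ℝ := Real.exp (-c ^ 2) / 2 / √(Real.exp (-c)) with hc₀
  have c0 : 0 < c₀ := by positivity
  set κ : ℝ := max 1 c₀⁻¹ with hκ
  have k1 : 1 ≤ κ := le_max_left _ _
  have k2 : c₀⁻¹ ≤ κ := le_max_right _ _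
  have he := Real.exp_pos c
  have hE : 0 < KO * Real.exp 1 := by positivity
  refine ⟨4 * κ ^ 2 + Real.exp c + KO * Real.exp 1, by nlinarith, fun φ Z hφ hZ => ?_⟩
  have Z1 : 1 ≤ Z := by nlinarith
  have Z0 : 0 < Z⁻¹ := by positivity
  have up : ∀ Y : ℝ, 0 < Y → ‖Wsum (uL φ) Y 0‖ ≤ KO * Real.exp 1 * Y ^ 2 := fun Y hY => by
    have := norm_Wsum_le hφ.uL hY 0 (k := 2) (by norm_num)
    rw [Real.rpow_two, show (2 : ℝ) ^ 2 / 4 = 1 by norm_num] at this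
    linarith
  set T : Set ℝ := (fun Y => ‖Wsum (uL φ) Y 0‖ / √Y) '' Set.Icc Z⁻¹ Z with hT
  have hb : BddAbove T := by
    refine ⟨KO * Real.exp 1 * Z ^ 2 / √Z⁻¹, ?_⟩
    rintro _ ⟨Y, ⟨a1, a2⟩, rfl⟩
    have hY := Z0.trans_le a1
    refine div_le_div₀ (by positivity) ((up Y hY).trans ?_) (Real.sqrt_pos.2 Z0)
      (Real.sqrt_le_sqrt a1)
    gcongr
  have hm : Real.exp (-c) ∈ Set.Icc Z⁻¹ Z := by
    refine ⟨?_, hy1.trans Z1⟩
    rw [Real.exp_neg]; exact inv_anti₀ he (by nlinarith)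
  have s0 : c₀ ≤ sSup T :=
    le_trans (div_le_div_of_nonneg_right (H φ hφ) (Real.sqrt_nonneg _)) (le_csSup hb ⟨_, hm, rfl⟩)
  have s1 : 0 < sSup T := c0.trans_le s0
  have L1 : 1 ≤ sSup T * κ := by
    have := mul_le_mul s0 k2 (by positivity) s1.le
    rwa [mul_inv_cancel₀ c0.ne'] at this
  obtain ⟨_, ⟨Y₀, ⟨a1, a2⟩, rfl⟩, h⟩ :=
    exists_lt_of_lt_csSup (s := T) ⟨_, _, hm, rfl⟩ (half_lt_self s1)
  have hY₀ := Z0.trans_le a1
  refine ⟨sSup T * κ, Y₀, L1, a1, a2, ?_, fun Y hY hYZ => ?_⟩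
  · have h1 : sSup T * √Y₀ ≤ 2 * ‖Wsum (uL φ) Y₀ 0‖ := by
      have := (lt_div_iff₀ (Real.sqrt_pos.2 hY₀)).1 h
      linarith
    have h2 := pow_le_pow_left₀ (by positivity) h1 2
    rw [mul_pow, mul_pow, Real.sq_sqrt hY₀.le] at h2
    have h3 := mul_le_mul_of_nonneg_left h2 (sq_nonneg κ)
    have h4 := mul_nonneg (add_pos he hE).le (sq_nonneg ‖Wsum (uL φ) Y₀ 0‖)
    nlinarith
  · have hs := Real.sqrt_pos.2 hY
    rcases le_total Z⁻¹ Y with h1 | h1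
    · have h2 : ‖Wsum (uL φ) Y 0‖ / √Y ≤ sSup T := le_csSup hb ⟨Y, ⟨h1, hYZ⟩, rfl⟩
      rw [div_le_iff₀ hs] at h2
      exact h2.trans (mul_le_mul_of_nonneg_right (le_mul_of_one_le_right s1.le k1) hs.le)
    · have h2 : Y * Z ≤ 1 := by rwa [← le_div_iff₀ (by linarith), one_div]
      have h3 : KO * Real.exp 1 * Y ≤ 1 := by
        have : KO * Real.exp 1 ≤ Z := by nlinarith
        nlinarith
      have h4 : Y ≤ √Y := Real.le_sqrt_of_sq_le (by nlinarith)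
      have h5 := up Y hY
      nlinarith

end Pool.Agent.P.MP_323ce2_nt.QX
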