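import Pool.Agent.P.MP_323ce2_nt.QX.St

/-! The maximal inequality in the scale and in the height. -/

namespace Pool.Agent.P.MP_323ce2_nt.QX

open Finset Pool.Agent.P.MP_26a8c3_nt Pool.Agent.P.MP_26a8c3_nt.QO Pool.Agent.P.MP_26a8c3_nt.QA
open Pool.Agent.P.MP_323ce2_nt.QZ Complex MeasureTheory
open scoped Classical Real

namespace MaxP

lemma summ {u : O → ℂ} (hu : B1 u) : Summable fun c => ‖u c‖ * nr c ^ (-(2 : ℝ)) :=
  Summable.of_nonneg_of_le (fun c => mul_nonneg (norm_nonneg _) (Real.rpow_nonneg (nr_pos c).le _))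
    (fun c => mul_le_of_le_one_left (Real.rpow_nonneg (nr_pos c).le _) (hu c))
    (QB.summable_nr one_lt_two)

lemma cell (s : Finset O) {w ξ τ : O → ℝ} {u : O → O → ℂ} {a t b : ℝ}
    (hs : ∀ m ∈ s, 0 ≤ w m ∧ B1 (u m) ∧ 0 < ξ m ∧ |Real.log (ξ m) - a| ≤ 1 / 2 ∧ |τ m - t| ≤ 1)
    (hb : ∀ X' t' : ℝ, 0 < X' → |Real.log X' - a| ≤ 2 → |t' - t| ≤ 4 →
      ∑ m ∈ s, w m * ‖Wsum (u m) X' t'‖ ^ 2 ≤ b) :
    ∑ m ∈ s, w m * ‖Wsum (u m) (ξ m) (τ m)‖ ^ 2 ≤ 2 * Real.exp 8 * b := by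
  set c : ℂ := (a : ℂ) with hc
  have hd : ∀ m ∈ s, Differentiable ℂ fun z => EW (u m) nr t z ^ 2 := fun m hm =>
    (differentiable_EW nr_pos (summ (hs m hm).2.1) t).pow 2
  have hcont : ∀ m ∈ s, Continuous fun θ => w m * ‖EW (u m) nr t (circleMap c 2 θ) ^ 2‖ :=
    fun m hm => ((hd m hm).continuous.comp (continuous_circleMap c 2)).norm.const_mul _
  have h1 : ∀ m ∈ s, π * (w m * ‖Wsum (u m) (ξ m) (τ m)‖ ^ 2) ≤
      ∫ θ in (0 : ℝ)..2 * π, w m * ‖EW (u m) nr t (circleMap c 2 θ) ^ 2‖ := fun m hm => by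
    obtain ⟨h0, -, h2, h3, h4⟩ := hs m hm
    have h := norm_le_circle (hd m hm) (c := c) (w := ⟨Real.log (ξ m), (τ m - t) / 2⟩) (by
      refine (norm_le_abs_re_add_abs_im _).trans ?_
      simp only [hc, sub_re, sub_im, ofReal_re, ofReal_im, sub_zero, abs_div, abs_two]
      linarith)
    rw [norm_pow, norm_EW] at h
    simp only [Real.exp_log h2] at h
    rw [show t + 2 * ((τ m - t) / 2) = τ m by ring] at h
    rw [intervalIntegral.integral_const_mul, mul_left_comm]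
    refine mul_le_mul_of_nonneg_left (le_trans ?_ h) h0
    have := Real.one_le_exp (sq_nonneg ((τ m - t) / 2))
    unfold Wsum
    gcongr
    exact le_mul_of_one_le_left (norm_nonneg _) this
  have h2 : ∀ θ : ℝ, ∑ m ∈ s, w m * ‖EW (u m) nr t (circleMap c 2 θ) ^ 2‖ ≤ Real.exp 8 * b := by
    intro θ
    set z := circleMap c 2 θ with hz
    have h4 : ‖z - c‖ = 2 := by simp [hz]
    have h5 : |z.re - a| ≤ 2 := by simpa [hc] using (abs_re_le_norm (z - c)).trans h4.le
    have h6 : |z.im| ≤ 2 := by simpa [hc] using (abs_im_le_norm (z - c)).trans h4.le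
    have h7 := hb (Real.exp z.re) (t + 2 * z.im) (Real.exp_pos _) (by rwa [Real.log_exp])
      (by rw [add_sub_cancel_left, abs_mul, abs_two]; linarith)
    refine le_trans ?_ (mul_le_mul_of_nonneg_left h7 (Real.exp_pos 8).le)
    rw [Finset.mul_sum]
    refine Finset.sum_le_sum fun m hm => ?_
    have h8 : Real.exp (z.im ^ 2) ^ 2 ≤ Real.exp 8 := by
      rw [← Real.exp_nat_mul, Real.exp_le_exp, ← sq_abs]
      push_cast
      nlinarith [abs_nonneg z.im]
    have := (hs m hm).1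
    rw [norm_pow, norm_EW, mul_pow, mul_left_comm]
    unfold Wsum
    gcongr
  have h3 := Finset.sum_le_sum h1
  rw [← Finset.mul_sum, ← intervalIntegral.integral_finsetSum
    fun m hm => (hcont m hm).intervalIntegrable _ _] at h3
  have h4 := intervalIntegral.integral_mono_on (μ := volume) (a := 0) (b := 2 * π) (by positivity)
    ((continuous_finsetSum s hcont).intervalIntegrable _ _)
    (continuous_const.intervalIntegrable _ _) fun θ _ => h2 θ
  rw [intervalIntegral.integral_const, smul_eq_mul] at h4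
  refine le_of_mul_le_mul_left ?_ Real.pi_pos
  linarith

lemma exp_le : Real.exp (5 / 2) ≤ 16 := by
  have h1 : Real.exp (5 / 2) ^ 2 = Real.exp 1 ^ 5 := by
    rw [← Real.exp_nat_mul, ← Real.exp_nat_mul]; norm_num
  have h2 : Real.exp 1 ^ 5 ≤ 3 ^ 5 := by gcongr; linarith [Real.exp_one_lt_d9]
  nlinarith [Real.exp_pos (5 / 2)]

lemma fl {x : ℝ} (h : 0 ≤ x) : |x - (⌊x⌋₊ + 1 / 2)| ≤ 1 / 2 := by
  have := Nat.floor_le h
  have := Nat.lt_floor_add_one x
  rw [abs_le]; constructor <;> linarith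

end MaxP

open MaxP

theorem pMax : S_Max := by
  refine ⟨2 * Real.exp 8 * Real.exp 5, by positivity,
    fun s w ξ τ u α lo hi T b hα hα2 hlo hlh hT hb0 hs hb => ?_⟩
  have hhi := hlo.trans_le hlh
  set L := Real.log (hi / lo) with hL
  have hL0 : 0 ≤ L := Real.log_nonneg ((one_le_div hlo).2 hlh)
  set key : O → ℕ × ℕ := fun m => (⌊Real.log (ξ m) - Real.log lo⌋₊, ⌊(τ m + T) / 2⌋₊) with hkey
  have hm : ∀ m ∈ s, key m ∈ range (⌊L⌋₊ + 1) ×ˢ range (⌊T⌋₊ + 1) := fun m hm => by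
    obtain ⟨-, -, h1, h2, h3⟩ := hs m hm
    simp only [hkey, mem_product, mem_range, Nat.lt_succ_iff]
    refine ⟨Nat.floor_le_floor ?_, Nat.floor_le_floor (by linarith [(abs_le.1 h3).2])⟩
    rw [hL, Real.log_div hhi.ne' hlo.ne']
    linarith [Real.log_le_log (hlo.trans_le h1) h2]
  rw [← sum_fiberwise_of_maps_to hm]
  refine (sum_le_card_nsmul _ _ (2 * Real.exp 8 * Real.exp 5 * b) fun k _ => ?_).trans ?_
  · rcases (s.filter fun m => key m = k).eq_empty_or_nonempty with h | ⟨m₀, h₀⟩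
    · rw [h, sum_empty]; positivity
    set a : ℝ := Real.log lo + (k.1 + 1 / 2) with ha
    set t : ℝ := -T + 2 * (k.2 + 1 / 2) with ht
    have hc : ∀ m ∈ s.filter fun m => key m = k, 0 ≤ w m ∧ B1 (u m) ∧ 0 < ξ m ∧
        |Real.log (ξ m) - a| ≤ 1 / 2 ∧ |τ m - t| ≤ 1 := fun m hm => by
      obtain ⟨hm, e⟩ := mem_filter.1 hm
      obtain ⟨h0, h1, h2, h3, h4⟩ := hs m hm
      have e1 := fl (sub_nonneg.2 (Real.log_le_log hlo h2))
      have e2 := fl (x := (τ m + T) / 2) (by linarith [(abs_le.1 h4).1])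
      subst e
      refine ⟨h0, h1, hlo.trans_le h2, by rwa [ha, ← sub_sub], ?_⟩
      rw [abs_le] at e2 ⊢
      simp only [ht, hkey]
      constructor <;> linarith [e2.1, e2.2]
    have h1 := cell _ hc (b := b * Real.exp (α * (a + 2))) fun X' t' h0 h1 h2 => by
      obtain ⟨-, -, g0, g1, g2⟩ := hc m₀ h₀
      obtain ⟨-, -, g3, g4, g5⟩ := hs m₀ (mem_filter.1 h₀).1
      rw [abs_le] at h1 h2 g1 g2 g5
      have k1 : ξ m₀ ≤ Real.exp (5 / 2) * X' := by
        rw [← Real.exp_log g0, ← Real.exp_log h0, ← Real.exp_add, Real.exp_le_exp]; linarith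
      have k2 : X' ≤ Real.exp (5 / 2) * ξ m₀ := by
        rw [← Real.exp_log g0, ← Real.exp_log h0, ← Real.exp_add, Real.exp_le_exp]; linarith
      have k3 := hb X' t' (by nlinarith [exp_le]) (by nlinarith [exp_le])
        (abs_le.2 ⟨by linarith, by linarith⟩)
      refine ((sum_le_sum_of_subset_of_nonneg (filter_subset _ _) fun m hm _ =>
        mul_nonneg (hs m hm).1 (sq_nonneg _)).trans k3).trans ?_
      rw [Real.rpow_def_of_pos h0, mul_comm _ α]
      gcongr
      linarith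
    calc _ ≤ ∑ m ∈ s.filter fun m => key m = k,
          Real.exp (-(α * (a - 1 / 2))) * (w m * ‖Wsum (u m) (ξ m) (τ m)‖ ^ 2) := by
          refine sum_le_sum fun m hm => ?_
          obtain ⟨h0, -, h2, h3, -⟩ := hc m hm
          rw [mul_left_comm, div_eq_inv_mul, Real.rpow_def_of_pos h2, ← Real.exp_neg]
          exact mul_le_mul_of_nonneg_left (mul_le_mul_of_nonneg_right
            (Real.exp_le_exp.2 (by nlinarith [(abs_le.1 h3).1])) (sq_nonneg _)) h0
      _ ≤ Real.exp (-(α * (a - 1 / 2))) * (2 * Real.exp 8 * (b * Real.exp (α * (a + 2)))) := by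
          rw [← mul_sum]; gcongr
      _ = 2 * Real.exp 8 * Real.exp (α * (5 / 2)) * b := by
          rw [show α * (5 / 2) = -(α * (a - 1 / 2)) + α * (a + 2) by ring, Real.exp_add]; ring
      _ ≤ _ := by gcongr; linarith
  · rw [card_product, card_range, card_range, nsmul_eq_mul]
    push_cast
    have := Nat.floor_le hL0
    have := Nat.floor_le hT
    calc _ ≤ (L + 1) * (T + 1) * (2 * Real.exp 8 * Real.exp 5 * b) := by gcongr
      _ = _ := by ring

end Pool.Agent.P.MP_323ce2_nt.QX
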