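import Pool.Agent.P.MP_323ce2_nt.QX.St

/-! The record argument, and the share of the largest pieces. -/

namespace Pool.Agent.P.MP_323ce2_nt.QX

open Finset Pool.Agent.P.MP_26a8c3_nt.QO Pool.Agent.P.MP_26a8c3_nt.QA
open Pool.Agent.P.MP_323ce2_nt.QF Pool.Agent.P.MP_323ce2_nt.QZ
open scoped Classical

namespace Rec

lemma ratio {u : O → ℂ} (hu : B1 u) {θ X Y : ℝ} (h0 : 0 ≤ θ) (h1 : θ ≤ 1) (hX : 0 < X)
    (hXY : X ≤ Y) (hY : 1 ≤ Y) : ‖Wsum u X 0‖ / X ^ θ ≤ KO * Real.exp 1 * Y ^ 2 := by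
  rw [div_le_iff₀ (Real.rpow_pos_of_pos hX θ)]
  refine (norm_Wsum_le hu hX 0 (k := 2) (by norm_num)).trans ?_
  have e : X ^ (2 : ℝ) = X ^ (2 - θ) * X ^ θ := by rw [← Real.rpow_add hX]; norm_num
  have h2 : X ^ (2 - θ) ≤ Y ^ 2 := by
    refine (Real.rpow_le_rpow hX.le hXY (by linarith)).trans ?_
    rw [← Real.rpow_two]
    exact Real.rpow_le_rpow_of_exponent_le hY (by linarith)
  have h3 := one_le_KO
  rw [e, show (2 : ℝ) ^ 2 / 4 = 1 by norm_num, ← mul_assoc, ← mul_assoc]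
  gcongr

lemma sub (x : ℕ → ℝ) (j n : ℕ) : ∀ s : Finset ℕ, #s = j + n →
    ∃ I ⊆ s, #I = j ∧ j * ∑ i ∈ s, x i ≤ (j + n : ℕ) * ∑ i ∈ I, x i := by
  induction n with
  | zero => exact fun s h => ⟨s, Subset.rfl, h, le_rfl⟩
  | succ n ih =>
    intro s h
    obtain ⟨a, ha, hm⟩ := exists_min_image s x (card_pos.1 (by omega))
    obtain ⟨I, h1, h2, h3⟩ := ih (s.erase a) (by rw [card_erase_of_mem ha]; omega)
    refine ⟨I, h1.trans (erase_subset a s), h2, ?_⟩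
    have h4 : (j : ℝ) * x a ≤ ∑ i ∈ I, x i := by
      have := card_nsmul_le_sum I x (x a) fun i hi => hm i (erase_subset a s (h1 hi))
      rwa [h2, nsmul_eq_mul] at this
    rw [← add_sum_erase s x ha]
    push_cast at h3 ⊢
    linarith

end Rec

theorem pRec : S_Rec := by
  intro u θ X₀ C hu h0 h1 hC h
  have hK : 0 ≤ KO * Real.exp 1 * max X₀ 1 ^ 2 := by
    have := one_le_KO
    positivity
  refine ⟨KO * Real.exp 1 * max X₀ 1 ^ 2 + 2 * C, fun X hX => ?_⟩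
  have hX0 : 0 < X := by linarith
  have hb : BddAbove ((fun y => ‖Wsum u y 0‖ / y ^ θ) '' Set.Ioc 0 X) :=
    ⟨_, Set.forall_mem_image.2 fun y hy => Rec.ratio hu h0 h1 hy.1 hy.2 hX⟩
  obtain ⟨B, hB⟩ : ∃ B, B = sSup ((fun y => ‖Wsum u y 0‖ / y ^ θ) '' Set.Ioc 0 X) := ⟨_, rfl⟩
  have h2 : ∀ y, 0 < y → y ≤ X → ‖Wsum u y 0‖ / y ^ θ ≤ B := fun y a b =>
    hB ▸ le_csSup hb ⟨y, ⟨a, b⟩, rfl⟩
  have h3 : 0 ≤ B := le_trans (by positivity) (h2 X hX0 le_rfl)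
  have h4 : B ≤ max (KO * Real.exp 1 * max X₀ 1 ^ 2) (B / 2 + C) := by
    refine hB.le.trans (csSup_le ⟨_, X, ⟨hX0, le_rfl⟩, rfl⟩
      (Set.forall_mem_image.2 fun y hy => ?_))
    rcases le_total y (max X₀ 1) with c | c
    · exact (Rec.ratio hu h0 h1 hy.1 c (le_max_right _ _)).trans (le_max_left _ _)
    · refine le_trans ?_ (le_max_right _ _)
      rw [div_le_iff₀ (Real.rpow_pos_of_pos hy.1 θ), add_mul]
      exact h y B ((le_max_left _ _).trans c) ((le_max_right _ _).trans c) h3 fun z a b =>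
        (div_le_iff₀ (Real.rpow_pos_of_pos a θ)).1 (h2 z a (b.trans hy.2))
  refine (div_le_iff₀ (Real.rpow_pos_of_pos hX0 θ)).1 ((h2 X hX0 le_rfl).trans ?_)
  rcases le_max_iff.1 h4 with c | c <;> linarith

theorem pSub : S_Sub := by
  intro J j x hj hx
  obtain ⟨n, rfl⟩ := Nat.exists_eq_add_of_le hj
  obtain ⟨I, h1, h2, h3⟩ := Rec.sub x j n (range (j + n)) (card_range _)
  refine ⟨I.filter fun i => 0 < x i, (filter_subset _ _).trans h1, h2 ▸ card_filter_le _ _,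
    fun i hi => (mem_filter.1 hi).2, h3.trans (le_of_eq ?_)⟩
  rw [sum_filter_of_ne fun i _ e => (hx i).lt_of_ne' e]

end Pool.Agent.P.MP_323ce2_nt.QX
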