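import Pool.Agent.P.MP_323ce2_nt.QX.Top
import Pool.Agent.P.MP_26a8c3_nt.QB.Rx
import Pool.Agent.P.MP_26a8c3_nt.QB.Base

/-! Amplification of the second moment by sixth powers. -/

namespace Pool.Agent.P.MP_323ce2_nt.QX

open Finset Pool.Agent.P.MP_26a8c3_nt Pool.Agent.P.MP_26a8c3_nt.QO Pool.Agent.P.MP_26a8c3_nt.QA
open Pool.Agent.P.MP_26a8c3_nt.QB
open scoped Classical

namespace UpAux

variable {Q : O} {ν : O → ℂ}

lemma uA_mul (m k c : O) : uA ν 1 (m * k) c = uA ν 1 k c * psi c m := by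
  unfold uA
  split_ifs
  · rw [psi_mul]; ring
  · simp

lemma split (hν : IsNu Q ν) {k : O} (hk : k ≠ 0) (m c : O) :
    uA ν 1 m c = ∑ d ∈ pdiv k,
      if d ∣ c then mu d * ν d * psi d m * uA ν 1 (m * k ^ 6) (quo c d) else 0 := by
  have h1 := uA_mul (ν := ν) m 1 c
  rw [mul_one] at h1
  rw [h1, Rx.uA_split hν hk, sum_mul]
  refine sum_congr rfl fun d hd => ?_
  have hd0 := ((mem_pdiv hk).1 hd).1.ne_zero
  split_ifs with h
  · rw [uA_mul]
    rcases eq_or_ne (quo c d) 0 with e | e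
    · rw [e, (bd1_uA hν 1 _).1]; simp
    · have h2 := psi_mul_left hd0 e m
      rw [mul_quo h] at h2
      rw [h2]; ring
  · simp

/-- removal of the coprimality condition attached to a sixth power -/
lemma amp (hν : IsNu Q ν) {k : O} (hk : k ≠ 0) (m : O) {X : ℝ} (hX : 0 < X) (t : ℝ) :
    ‖A ν 1 m X t‖ ≤ ∑ d ∈ pdiv k, ‖A ν 1 (m * k ^ 6) (X / N d) t‖ := by
  have hmn : ∀ d, ‖mu d * ν d * psi d m‖ ≤ 1 := fun d =>
    norm_mul_le_one (norm_mul_le_one (norm_mu_le d) (hν.le d)) (norm_psi_le d m)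
  rw [A, Wsum]
  simp_rw [split hν hk m, sum_mul]
  rw [Summable.tsum_finsetSum fun d _ => summable_Wc (fun c => ?_) hX t]
  · refine norm_sum_le_of_le _ fun d hd => ?_
    have hd0 := ((mem_pdiv hk).1 hd).1.ne_zero
    have := Rx.Wsum_dvd hd0 (z := mu d * ν d * psi d m) (v := uA ν 1 (m * k ^ 6))
      (u := fun c => if d ∣ c then mu d * ν d * psi d m * uA ν 1 (m * k ^ 6) (quo c d) else 0)
      (fun c hc => if_neg hc) (fun c => by rw [if_pos (dvd_mul_right d c), quo_mul hd0])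
      (bd1_uA hν _ _).1 hX t
    rw [Wsum] at this
    rw [this, norm_mul]
    exact mul_le_of_le_one_left (norm_nonneg _) (Rx.norm_coef (hmn d) hd0 t)
  · split_ifs
    · exact norm_mul_le_one (hmn d) ((bd1_uA hν _ _).2 _)
    · simp

/-- the number of representations as a multiple of a sixth power -/
lemma mult {ε : ℝ} (hε : 0 < ε) : ∃ C : ℝ, 0 < C ∧ ∀ (s T : Finset O) (f : O → ℝ) (R : ℝ),
    (∀ y, 0 ≤ f y) → (∀ m ∈ s, ∀ k ∈ T, m * k ^ 6 ∈ (ball R).erase 0) →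
    ∑ m ∈ s, ∑ k ∈ T, f (m * k ^ 6) ≤ C * R ^ ε * ∑ y ∈ (ball R).erase 0, f y := by
  obtain ⟨C, hC, H⟩ := card_dvd_le hε
  refine ⟨C, hC, fun s T f R hf h => ?_⟩
  rw [← sum_product' s T fun m k => f (m * k ^ 6), ← sum_fiberwise_of_maps_to
    (g := fun x : O × O => x.1 * x.2 ^ 6) (t := (ball R).erase 0)
    fun x hx => h _ (mem_product.1 hx).1 _ (mem_product.1 hx).2, mul_sum]
  refine sum_le_sum fun y hy => ?_
  obtain ⟨y0, y1⟩ := mem_erase.1 hy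
  rw [sum_congr rfl fun x hx => congrArg f (mem_filter.1 hx).2, sum_const, nsmul_eq_mul]
  refine mul_le_mul_of_nonneg_right ?_ (hf y)
  have hi : Set.InjOn Prod.snd
      (((s ×ˢ T).filter fun x : O × O => x.1 * x.2 ^ 6 = y : Finset (O × O)) : Set (O × O)) := by
    intro a ha b hb e
    have a1 := (mem_filter.1 (mem_coe.1 ha)).2
    have b1 := (mem_filter.1 (mem_coe.1 hb)).2
    have k0 : a.2 ^ 6 ≠ 0 := fun z => y0 (by rw [← a1, z, mul_zero])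
    refine Prod.ext (mul_right_cancel₀ k0 ?_) e
    rw [a1, e, b1]
  rw [← card_image_of_injOn hi]
  refine (H y _ y0 fun d hd => ?_).trans (mul_le_mul_of_nonneg_left
    (Real.rpow_le_rpow (by positivity) (mem_ball.1 y1) hε.le) hC.le)
  obtain ⟨x, hx, rfl⟩ := mem_image.1 hd
  rw [← (mem_filter.1 hx).2]
  exact (dvd_pow_self _ (by norm_num)).mul_left _

end UpAux

open UpAux in
theorem pUp (h : S_T1) : S_Up := by
  obtain ⟨κ, h⟩ := h
  intro Q hQ h36 ε hε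
  have hδ : 0 < ε / 4 := by positivity
  obtain ⟨C, K, hC, h⟩ := h Q hQ h36 (ε / 4) 1 hδ one_pos 0
  obtain ⟨C₁, hC₁, h1⟩ := mult hδ
  obtain ⟨C₂, hC₂, h2⟩ := dv_le hδ
  obtain ⟨c, hc, h3⟩ := BaseP.cntP
  have hz := zt_nonneg (1 + ε / 4)
  have hT : ∀ (ν : O → ℂ) (Z M X t : ℝ), IsNu Q ν → 1 ≤ M → M ≤ Z → 0 < X → X ≤ Z →
      ∑ m ∈ (ball M).erase 0, ‖A ν 1 m X t‖ ^ 2 ≤
        C * (1 + |t|) ^ K * Z ^ (ε / 4) * ((M + X) * X) := fun ν Z M X t hν a b d e => by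
    have z1 : 1 ≤ Z := a.trans b
    have := h ν Z M X (4 * Z) 1 t ∅ (fun _ => ∅) (fun _ => 0) hν a b d e le_rfl z1
      (by rw [Real.rpow_one]; linarith) (by simpa using one_le_pow₀ (n := 5) z1)
      ⟨by simp, by simp, by simp, by simp⟩ (by simp) (Or.inl rfl)
    simpa [FF] using this
  refine ⟨2 * C + C₂ * C₁ * (2 * C) * zt (1 + ε / 4) / c, K, by positivity,
    fun ν Z M X t hν hM hMZ hX hXZ => ?_⟩
  have hZ : 1 ≤ Z := hM.trans hMZ
  have Z0 : 0 < Z := by linarith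
  have M0 : 0 < M := by linarith
  have hp : 0 ≤ M ^ (1 / 6 : ℝ) * X ^ (5 / 6 : ℝ) := by positivity
  have hq : 0 ≤ C₂ * C₁ * (2 * C) * zt (1 + ε / 4) / c := by positivity
  rcases le_total X M with hXM | hXM
  · have e1 : Z ^ (ε / 4) ≤ Z ^ ε := Real.rpow_le_rpow_of_exponent_le hZ (by linarith)
    calc _ ≤ _ := hT ν Z M X t hν hM hMZ hX hXZ
      _ ≤ C * (1 + |t|) ^ K * Z ^ ε * ((M + M) * X) := by gcongr
      _ = 2 * C * (1 + |t|) ^ K * Z ^ ε * (M * X) := by ring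
      _ ≤ _ := by gcongr <;> linarith
  have X1 : 1 ≤ X := hM.trans hXM
  obtain ⟨Y, hY⟩ : ∃ Y : ℝ, Y = (X / M) ^ (1 / 6 : ℝ) := ⟨_, rfl⟩
  have hY1 : 1 ≤ Y := hY ▸ Real.one_le_rpow ((one_le_div M0).2 hXM) (by norm_num)
  have Y0 : 0 < Y := by linarith
  have hY6 : M * Y ^ 6 = X := by
    rw [hY, ← Real.rpow_natCast, ← Real.rpow_mul (by positivity)]
    norm_num
    field_simp
  have hYZ : Y ≤ Z := by
    have a : Y ≤ Y ^ 6 := le_self_pow₀ hY1 (by norm_num)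
    have b : Y ^ 6 ≤ M * Y ^ 6 := le_mul_of_one_le_left (by positivity) hM
    linarith
  have hXY : X = M ^ (1 / 6 : ℝ) * X ^ (5 / 6 : ℝ) * Y := by
    have a : X = X ^ (5 / 6 : ℝ) * X ^ (1 / 6 : ℝ) := by
      rw [← Real.rpow_add hX]; norm_num
    have b : 0 < M ^ (1 / 6 : ℝ) := by positivity
    rw [hY, Real.div_rpow hX.le M0.le]
    field_simp
    exact a
  obtain ⟨T, hTd⟩ : ∃ T, T = (ball Y).filter Primary := ⟨_, rfl⟩
  have hT' : ∀ k ∈ T, k ≠ 0 ∧ (N k : ℝ) ≤ Y := fun k hk => by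
    rw [hTd, mem_filter] at hk
    exact ⟨hk.2.ne_zero, mem_ball.1 hk.1⟩
  obtain ⟨E, hE⟩ : ∃ E : ℝ, E = Z ^ (ε / 4) := ⟨_, rfl⟩
  have E0 : 0 < E := by rw [hE]; positivity
  have hE4 : Z ^ ε = E * E * E * E := by
    rw [hE, ← Real.rpow_add Z0, ← Real.rpow_add Z0, ← Real.rpow_add Z0]
    congr 1; ring
  have k1 : ∀ m, ∀ k ∈ T, ‖A ν 1 m X t‖ ^ 2 ≤
      C₂ * E * ∑ d ∈ (ball Y).erase 0, ‖A ν 1 (m * k ^ 6) (X / N d) t‖ ^ 2 := fun m k hk => by
    obtain ⟨k0, kY⟩ := hT' k hk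
    refine (pow_le_pow_left₀ (norm_nonneg _) (amp hν k0 m hX t) 2).trans
      (sq_sum_le_card_mul_sum_sq.trans (mul_le_mul ((h2 k k0).trans ?_) ?_
        (sum_nonneg fun _ _ => by positivity) (by positivity)))
    · rw [hE]
      gcongr
      exact kY.trans hYZ
    · refine sum_le_sum_of_subset_of_nonneg (fun d hd => ?_) fun _ _ _ => by positivity
      obtain ⟨b1, b2⟩ := (mem_pdiv k0).1 hd
      refine mem_erase.2 ⟨b1.ne_zero, mem_ball.2 (le_trans ?_ kY)⟩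
      exact_mod_cast N_le_of_dvd b2 k0
  have k2 : ∀ d ∈ (ball Y).erase 0, ∑ m ∈ (ball M).erase 0, ∑ k ∈ T,
      ‖A ν 1 (m * k ^ 6) (X / N d) t‖ ^ 2 ≤
        C₁ * E * (C * (1 + |t|) ^ K * E * (2 * X * X)) * (N d : ℝ)⁻¹ := fun d hd => by
    have d0 := (mem_erase.1 hd).1
    have d1 := one_le_N d0
    have d2 : X / N d ≤ X := div_le_self hX.le d1
    refine (h1 _ T (fun y => ‖A ν 1 y (X / N d) t‖ ^ 2) X (fun _ => by positivity)
      fun m hm k hk => ?_).trans ?_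
    · obtain ⟨k0, kY⟩ := hT' k hk
      obtain ⟨m0, m1⟩ := mem_erase.1 hm
      refine mem_erase.2 ⟨mul_ne_zero m0 (pow_ne_zero _ k0), mem_ball.2 ?_⟩
      rw [map_mul, map_pow, Nat.cast_mul, Nat.cast_pow, ← hY6]
      gcongr
      exact mem_ball.1 m1
    · have a := hT ν Z X (X / N d) t hν X1 hXZ (by positivity) (d2.trans hXZ)
      have b : X ^ (ε / 4) ≤ E := hE ▸ Real.rpow_le_rpow hX.le hXZ hδ.le
      rw [← hE] at a
      calc _ ≤ C₁ * E * (C * (1 + |t|) ^ K * E * ((X + X) * (X / N d))) := by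
            refine mul_le_mul (by gcongr) (a.trans ?_) (sum_nonneg fun _ _ => by positivity)
              (by positivity)
            gcongr
        _ = _ := by rw [div_eq_mul_inv]; ring
  have k3 : ∑ d ∈ (ball Y).erase 0, (N d : ℝ)⁻¹ ≤ zt (1 + ε / 4) * E := by
    refine (sum_le_sum_of_subset_of_nonneg (erase_subset _ _) fun _ _ _ => by positivity).trans
      ((sum_inv_le hδ Y0.le).trans ?_)
    rw [hE]
    gcongr
  have main : c * Y * ∑ m ∈ (ball M).erase 0, ‖A ν 1 m X t‖ ^ 2 ≤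
      C₂ * E * (C₁ * E * (C * (1 + |t|) ^ K * E * (2 * X * X)) * (zt (1 + ε / 4) * E)) :=
    calc _ ≤ (T.card : ℝ) * ∑ m ∈ (ball M).erase 0, ‖A ν 1 m X t‖ ^ 2 :=
          mul_le_mul_of_nonneg_right (hTd ▸ h3 Y hY1) (sum_nonneg fun _ _ => by positivity)
      _ = ∑ m ∈ (ball M).erase 0, ∑ _k ∈ T, ‖A ν 1 m X t‖ ^ 2 := by
          simp only [sum_const, nsmul_eq_mul, mul_sum]
      _ ≤ ∑ m ∈ (ball M).erase 0, ∑ k ∈ T, C₂ * E *
            ∑ d ∈ (ball Y).erase 0, ‖A ν 1 (m * k ^ 6) (X / N d) t‖ ^ 2 :=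
          sum_le_sum fun m _ => sum_le_sum (k1 m)
      _ = C₂ * E * ∑ d ∈ (ball Y).erase 0, ∑ m ∈ (ball M).erase 0, ∑ k ∈ T,
            ‖A ν 1 (m * k ^ 6) (X / N d) t‖ ^ 2 := by
          simp only [← mul_sum]
          rw [sum_comm_cycle]
      _ ≤ _ := by
          refine mul_le_mul_of_nonneg_left ((sum_le_sum k2).trans ?_) (by positivity)
          rw [← mul_sum]
          exact mul_le_mul_of_nonneg_left k3 (by positivity)
  have fin : ∑ m ∈ (ball M).erase 0, ‖A ν 1 m X t‖ ^ 2 ≤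
      C₂ * C₁ * (2 * C) * zt (1 + ε / 4) / c * (1 + |t|) ^ K * Z ^ ε *
        (M ^ (1 / 6 : ℝ) * X ^ (5 / 6 : ℝ) * X) := by
    refine le_of_mul_le_mul_left (main.trans_eq ?_) (mul_pos hc Y0)
    obtain ⟨V, hV⟩ : ∃ V, V = M ^ (1 / 6 : ℝ) * X ^ (5 / 6 : ℝ) := ⟨_, rfl⟩
    rw [← hV] at hXY ⊢
    rw [hE4, show 2 * X * X = 2 * (V * Y) * X by rw [← hXY]]
    field_simp
  refine fin.trans ?_
  gcongr <;> linarith

end Pool.Agent.P.MP_323ce2_nt.QX
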