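import Pool.Agent.P.MP_323ce2_nt.QX.St

/-! Maximal form of the second moment with pieces. -/

namespace Pool.Agent.P.MP_323ce2_nt.QX

open Finset Pool.Agent.P.MP_26a8c3_nt Pool.Agent.P.MP_26a8c3_nt.QO Pool.Agent.P.MP_26a8c3_nt.QA
open Pool.Agent.P.MP_323ce2_nt.QF Pool.Agent.P.MP_323ce2_nt.QZ
open scoped Classical

namespace W1

lemma pow5 {Z : ℝ} (hZ : 0 ≤ Z) (x : ℝ) : (Z ^ 5) ^ (x / 5) = Z ^ x := by
  rw [← Real.rpow_natCast, ← Real.rpow_mul hZ]
  congr 1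
  push_cast
  ring

lemma log_le {Z ε lo hi : ℝ} (hZ : 2 ≤ Z) (hε : 0 < ε) (h1 : Z⁻¹ ≤ lo) (h2 : lo ≤ hi)
    (h3 : hi ≤ Z) : 1 + Real.log (hi / lo) ≤ (1 + 4 / ε) * Z ^ (ε / 2) := by
  have hZ0 : 0 < Z := by linarith
  have hlo : 0 < lo := lt_of_lt_of_le (by positivity) h1
  have e1 : hi / lo ≤ Z ^ 2 := by
    calc hi / lo ≤ Z / Z⁻¹ := by gcongr
      _ = Z ^ 2 := by field_simp
  have e2 := Real.log_le_log (div_pos (hlo.trans_le h2) hlo) e1
  rw [Real.log_pow] at e2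
  have e3 := Real.log_le_rpow_div hZ0.le (half_pos hε)
  have e4 : 1 ≤ Z ^ (ε / 2) := Real.one_le_rpow (by linarith) (half_pos hε).le
  have e5 : (1 + 4 / ε) * Z ^ (ε / 2) = Z ^ (ε / 2) + 2 * (Z ^ (ε / 2) / (ε / 2)) := by
    field_simp
    ring
  push_cast at e2
  linarith

end W1

open W1 in
theorem pW1 : S_Max → S_T1 → S_W1 := by
  rintro ⟨Cm, hCm, hM⟩ ⟨κ, hT⟩
  refine ⟨κ, fun Q hQ h36 ε η hε hη J => ?_⟩
  obtain ⟨C, K, hC, hT⟩ := hT Q hQ h36 (ε / 2 / 5) (η / 5) (by positivity) (by positivity) J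
  refine ⟨2 ^ J * (Cm * (1 + 4 / ε) * (17 * 7 ^ K * C)), K + 1, by positivity,
    fun ν Z M lo P T S φ ξ τ I hν hZ hM1 hMZ hP1 hPZ hlo hP4 hPc hT0 hr => ?_⟩
  have hZ0 : 0 < Z := by linarith
  have hP0 : 0 < P := by linarith
  have hZ5 : 16 * Z ≤ Z ^ 5 := by
    have : (2 : ℝ) ^ 4 ≤ Z ^ 4 := by gcongr
    nlinarith
  have key : ∀ I₀ ∈ (range J).powerset, ∑ m ∈ (Rows Q M).filter (fun m => I m = I₀),
      ‖FF (I m) S φ m‖ ^ 2 * ‖A ν 1 m (ξ m) (τ m)‖ ^ 2 / (ξ m * P ^ #(I m)) ≤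
      Cm * (1 + 4 / ε) * (17 * 7 ^ K * C) * (1 + T) ^ (K + 1) * Z ^ ε * P ^ κ * M := by
    intro I₀ hI₀
    rw [mem_powerset] at hI₀
    set s := (Rows Q M).filter (fun m => I m = I₀) with hs
    rcases s.eq_empty_or_nonempty with he | ⟨m₀, hm₀⟩
    · rw [he, sum_empty]
      positivity
    set lo' : ℝ := if I₀ = ∅ then Z⁻¹ else 16 * P ^ (4 * #I₀) with hlo'
    set hi : ℝ := M / P ^ (2 * #I₀) with hhi
    have hm : ∀ m ∈ s, lo' ≤ ξ m ∧ ξ m ≤ hi ∧ |τ m| ≤ T := fun m hm => by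
      obtain ⟨h1, h2⟩ := mem_filter.1 hm
      obtain ⟨a, b, -, d, e⟩ := hr m h1
      rw [h2] at d e
      refine ⟨?_, (le_div_iff₀ (by positivity)).2 d, b⟩
      rw [hlo']
      split_ifs with h
      exacts [a, e.resolve_left h]
    have h1 : Z⁻¹ ≤ lo' := by
      rw [hlo']
      split_ifs
      · exact le_rfl
      · have : Z⁻¹ ≤ 1 := inv_le_one_of_one_le₀ (by linarith)
        have := one_le_pow₀ (n := 4 * #I₀) hP1
        linarith
    have h2 : lo' ≤ hi := (hm m₀ hm₀).1.trans (hm m₀ hm₀).2.1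
    have h3 : hi ≤ M := div_le_self (by linarith) (one_le_pow₀ hP1)
    have h4 : 0 < lo' := lt_of_lt_of_le (by positivity) h1
    have hD : 0 < P ^ #I₀ := by positivity
    have h5 := hM s (fun m => ‖FF I₀ S φ m‖ ^ 2 / P ^ #I₀) ξ τ (uA ν 1) 1 lo' hi T
      (17 * 7 ^ K * C * (1 + T) ^ K * Z ^ (ε / 2) * P ^ κ * M) zero_le_one one_le_two h4 h2 hT0
      (by positivity) (fun m hm' => ⟨by positivity, (QB.bd1_uA hν 1 m).2, hm m hm'⟩)
      fun X t hX1 hX2 ht => by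
        have hX0 : 0 < X := lt_of_lt_of_le (by positivity) hX1
        have h6 := hT ν (Z ^ 5) M X lo P t I₀ S φ hν hM1 (by linarith) hX0 (by linarith) hP1
          (by linarith) (by rwa [pow5 hZ0.le]) hP4 (hPc.mono hI₀)
          ((card_le_card hI₀).trans (card_range J).le) (by
            by_cases h : I₀ = ∅
            · exact Or.inl h
            · rw [hlo', if_neg h] at hX1
              exact Or.inr (by linarith))
        rw [pow5 hZ0.le] at h6
        have h7 : X * P ^ (2 * #I₀) ≤ 16 * M := by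
          rw [hhi, ← mul_div_assoc, le_div_iff₀ (by positivity)] at hX2
          exact hX2
        have h8 : s ⊆ (ball M).erase 0 := fun m hm' => by
          have := mem_Rows.1 (mem_filter.1 hm').1
          exact mem_erase.2 ⟨this.2.1, mem_ball.2 this.1⟩
        have h9 : (1 + |t|) ^ K ≤ 7 ^ K * (1 + T) ^ K := by
          rw [← mul_pow]
          exact pow_le_pow_left₀ (by positivity) (by linarith) K
        rw [Real.rpow_one]
        calc ∑ m ∈ s, ‖FF I₀ S φ m‖ ^ 2 / P ^ #I₀ * ‖Wsum (uA ν 1 m) X t‖ ^ 2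
            = (∑ m ∈ s, ‖FF I₀ S φ m‖ ^ 2 * ‖A ν 1 m X t‖ ^ 2) / P ^ #I₀ := by
              rw [sum_div]
              exact sum_congr rfl fun m _ => by rw [A]; ring
          _ ≤ (C * (7 ^ K * (1 + T) ^ K) * Z ^ (ε / 2) * P ^ κ * ((M + 16 * M) * (X * P ^ #I₀))) /
              P ^ #I₀ := by
              refine div_le_div_of_nonneg_right (((sum_le_sum_of_subset_of_nonneg h8
                fun _ _ _ => by positivity).trans h6).trans ?_) hD.le
              gcongr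
          _ = _ := by field_simp; ring
    have h10 := log_le hZ hε h1 h2 (h3.trans hMZ)
    have h11 : Z ^ (ε / 2) * Z ^ (ε / 2) = Z ^ ε := by rw [← Real.rpow_add hZ0, add_halves]
    calc _ = ∑ m ∈ s, ‖FF I₀ S φ m‖ ^ 2 / P ^ #I₀ *
          (‖Wsum (uA ν 1 m) (ξ m) (τ m)‖ ^ 2 / ξ m ^ (1 : ℝ)) := by
          refine sum_congr rfl fun m hm' => ?_
          rw [(mem_filter.1 hm').2, Real.rpow_one, A, div_mul_div_comm, mul_comm (ξ m)]
      _ ≤ Cm * ((1 + 4 / ε) * Z ^ (ε / 2)) * (1 + T) *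
          (17 * 7 ^ K * C * (1 + T) ^ K * Z ^ (ε / 2) * P ^ κ * M) := by
          refine h5.trans ?_
          gcongr
      _ = _ := by rw [← h11]; ring
  rw [← sum_fiberwise_of_maps_to (t := (range J).powerset) (g := I)
    fun m hm => mem_powerset.2 (hr m hm).2.2.1]
  refine (sum_le_card_nsmul _ _ _ key).trans (le_of_eq ?_)
  rw [card_powerset, card_range, nsmul_eq_mul]
  push_cast
  ring

end Pool.Agent.P.MP_323ce2_nt.QX
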