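import Pool.Agent.P.MP_323ce2_nt.QX.St

/-! Maximal form of the amplified second moment. -/

namespace Pool.Agent.P.MP_323ce2_nt.QX

open Finset Pool.Agent.P.MP_26a8c3_nt.QO Pool.Agent.P.MP_26a8c3_nt.QA
open Pool.Agent.P.MP_323ce2_nt.QF Pool.Agent.P.MP_323ce2_nt.QZ
open scoped Classical

namespace W2

lemma num {M X : ℝ} (hM : 0 < M) (hX : M / 16 ≤ X) :
    (M + M ^ (1 / 6 : ℝ) * X ^ (5 / 6 : ℝ)) * X ≤ 17 * M ^ (1 / 6 : ℝ) * X ^ (11 / 6 : ℝ) := by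
  have hX0 : 0 < X := lt_of_lt_of_le (by positivity) hX
  have e1 : X ^ (11 / 6 : ℝ) = X ^ (5 / 6 : ℝ) * X := by
    rw [← Real.rpow_add_one hX0.ne']; norm_num
  have e2 : M = M ^ (1 / 6 : ℝ) * M ^ (5 / 6 : ℝ) := by
    rw [← Real.rpow_add hM]; norm_num
  have h1 : M ^ (5 / 6 : ℝ) ≤ 16 * X ^ (5 / 6 : ℝ) := by
    calc _ ≤ (16 * X) ^ (5 / 6 : ℝ) := Real.rpow_le_rpow hM.le (by linarith) (by norm_num)
      _ = (16 : ℝ) ^ (5 / 6 : ℝ) * X ^ (5 / 6 : ℝ) := Real.mul_rpow (by norm_num) hX0.le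
      _ ≤ _ := by
        gcongr
        exact Real.rpow_le_self_of_one_le (by norm_num) (by norm_num)
  have h2 : M ≤ 16 * (M ^ (1 / 6 : ℝ) * X ^ (5 / 6 : ℝ)) := by
    calc M = _ := e2
      _ ≤ M ^ (1 / 6 : ℝ) * (16 * X ^ (5 / 6 : ℝ)) := by gcongr
      _ = _ := by ring
  rw [e1]
  nlinarith [mul_le_mul_of_nonneg_right h2 hX0.le]

end W2

theorem pW2 (h1 : S_Max) (h2 : QX.S_Up) : S_W2 := by
  intro Q hQ h36 ε hε
  obtain ⟨C₁, hC₁, h1⟩ := h1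
  obtain ⟨C₂, K, hC₂, h2⟩ := h2 Q hQ h36 (ε / 14) (by positivity)
  refine ⟨C₁ * (1 + 6 / ε) * (C₂ * 7 ^ K * 17), K + 1, by positivity, ?_⟩
  intro ν Z M T ξ τ hν hZ hM hMZ hT hr
  have hZ1 : 1 ≤ Z := by linarith
  have hZ0 : 0 < Z := by linarith
  have hM0 : 0 < M := by linarith
  have hZ3 : Z ≤ Z ^ 3 := le_self_pow₀ hZ1 (by norm_num)
  have hZ7 : 16 * Z ^ 3 ≤ Z ^ 7 := by
    have : (2 : ℝ) ^ 4 ≤ Z ^ 4 := by gcongr
    calc _ ≤ Z ^ 4 * Z ^ 3 := by gcongr; linarith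
      _ = _ := by ring
  have hE : (Z ^ 7) ^ (ε / 14) = Z ^ (ε / 2) := by
    rw [← Real.rpow_natCast, ← Real.rpow_mul hZ0.le]
    congr 1
    push_cast
    ring
  have hE1 : 1 ≤ Z ^ (ε / 2) := Real.one_le_rpow hZ1 (by positivity)
  have h3 := h1 (Rows Q M) (fun _ => 1) ξ τ (uA ν 1) (11 / 6) M (Z ^ 3) T
    (C₂ * (7 ^ K * (1 + T) ^ K) * Z ^ (ε / 2) * (17 * M ^ (1 / 6 : ℝ))) (by norm_num) (by norm_num)
    hM0 (hMZ.trans hZ3) hT (by positivity)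
    (fun m hm => ⟨zero_le_one, by rw [uA_eq]; exact (mul1_ph hν m).uM, hr m hm⟩) fun X t a1 a2 a3 => by
      have hX0 : 0 < X := lt_of_lt_of_le (by positivity) a1
      have h4 := h2 ν (Z ^ 7) M X t hν hM (by nlinarith) hX0 (a2.trans hZ7)
      have h5 : (1 + |t|) ^ K ≤ 7 ^ K * (1 + T) ^ K := by
        rw [← mul_pow]
        exact pow_le_pow_left₀ (by positivity) (by linarith) K
      rw [hE] at h4
      simp only [one_mul]
      calc _ ≤ ∑ m ∈ (ball M).erase 0, ‖A ν 1 m X t‖ ^ 2 :=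
            sum_le_sum_of_subset_of_nonneg (fun m hm => mem_erase.2
              ⟨(mem_Rows.1 hm).2.1, mem_ball.2 (mem_Rows.1 hm).1⟩) fun _ _ _ => by positivity
        _ ≤ _ := h4
        _ ≤ C₂ * (7 ^ K * (1 + T) ^ K) * Z ^ (ε / 2) *
            (17 * M ^ (1 / 6 : ℝ) * X ^ (11 / 6 : ℝ)) := by
            have := W2.num hM0 a1
            gcongr
        _ = _ := by ring
  have h6 : 1 + Real.log (Z ^ 3 / M) ≤ (1 + 6 / ε) * Z ^ (ε / 2) := by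
    have a1 : Real.log (Z ^ 3 / M) ≤ 3 * Real.log Z := by
      rw [Real.log_div (by positivity) hM0.ne', Real.log_pow]
      have := Real.log_nonneg hM
      push_cast
      linarith
    have a2 := Real.log_le_rpow_div hZ0.le (show 0 < ε / 2 by positivity)
    have a3 : 3 * (Z ^ (ε / 2) / (ε / 2)) = 6 / ε * Z ^ (ε / 2) := by field_simp; norm_num
    linarith
  have hE2 : Z ^ ε = Z ^ (ε / 2) * Z ^ (ε / 2) := by rw [← Real.rpow_add hZ0, add_halves]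
  simp only [one_mul] at h3
  refine h3.trans ?_
  calc _ ≤ C₁ * ((1 + 6 / ε) * Z ^ (ε / 2)) * (1 + T) *
        (C₂ * (7 ^ K * (1 + T) ^ K) * Z ^ (ε / 2) * (17 * M ^ (1 / 6 : ℝ))) := by gcongr
    _ = _ := by rw [hE2]; ring

end Pool.Agent.P.MP_323ce2_nt.QX
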