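import Pool.Agent.P.MP_323ce2_nt.QX.St

/-! Maximal form of the fourth moment with pieces. -/

namespace Pool.Agent.P.MP_323ce2_nt.QX

open Finset Pool.Agent.P.MP_26a8c3_nt.QO Pool.Agent.P.MP_26a8c3_nt.QA
open Pool.Agent.P.MP_323ce2_nt.QF Pool.Agent.P.MP_323ce2_nt.QZ
open scoped Classical

namespace W3

theorem rp {D M x : ℝ} (hM : 1 ≤ M) (hx : 0 ≤ x) (h : D ^ 3 * x ^ 2 ≤ 256 * M) :
    D * (M * x) ^ (2 / 3 : ℝ) ≤ 16 * M := by
  refine le_of_pow_le_pow_left₀ three_ne_zero (by linarith) ?_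
  rw [mul_pow, ← Real.rpow_natCast (_ ^ (2 / 3 : ℝ)), ← Real.rpow_mul (by positivity),
    show (2 / 3 : ℝ) * (3 : ℕ) = (2 : ℕ) by norm_num, Real.rpow_natCast]
  have h1 := mul_le_mul_of_nonneg_left h (sq_nonneg M)
  have h2 : 0 ≤ M ^ 3 := by positivity
  nlinarith

/-- the range of the first scale in one class -/
theorem range_hi {Z M P : ℝ} (hZ : 2 ≤ Z) (hM : 1 ≤ M) (hMZ : M ≤ Z) (hP : 1 ≤ P) (I : Finset ℕ)
    (s : Finset O) (hs : s.Nonempty) (ξ : O → ℝ)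
    (h : ∀ m ∈ s, ξ m ≤ Z ^ 3 ∧ (I = ∅ ∨ P ^ (3 * #I) * max 1 (ξ m) ^ 2 ≤ M)) :
    ∃ hi : ℝ, 1 ≤ hi ∧ hi ≤ Z ^ 3 ∧ (∀ m ∈ s, ξ m ≤ hi) ∧ ∀ Y : ℝ, Y ≤ 16 * hi →
      P ^ #I * (M * max 1 (min Y √M)) ^ (2 / 3 : ℝ) ≤ 16 * M := by
  have hZ3 : Z ≤ Z ^ 3 := le_self_pow₀ (by linarith) three_ne_zero
  by_cases hI : I = ∅
  · refine ⟨Z ^ 3, by linarith, le_rfl, fun m hm => (h m hm).1,
      fun Y _ => rp hM (by positivity) ?_⟩
    have h1 : max 1 (min Y √M) ≤ √M := max_le (Real.one_le_sqrt.2 hM) (min_le_right _ _)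
    have h2 := pow_le_pow_left₀ (by positivity) h1 2
    rw [Real.sq_sqrt (by linarith)] at h2
    rw [hI, card_empty, pow_zero, one_pow, one_mul]
    linarith
  · have hD : 1 ≤ (P ^ #I) ^ 3 := one_le_pow₀ (one_le_pow₀ hP)
    have k : ∀ m ∈ s, max 1 (ξ m) ≤ √(M / (P ^ #I) ^ 3) := fun m hm => by
      refine Real.le_sqrt_of_sq_le ((le_div_iff₀' (by linarith)).2 ?_)
      rw [← pow_mul']
      exact (h m hm).2.resolve_left hI
    obtain ⟨m₀, hm₀⟩ := hs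
    have h1 := (le_max_left _ _).trans (k m₀ hm₀)
    refine ⟨_, h1, ?_, fun m hm => (le_max_right _ _).trans (k m hm),
      fun Y hY => rp hM (by positivity) ?_⟩
    · refine Real.sqrt_le_iff.2 ⟨by linarith, (div_le_self (by linarith) hD).trans ?_⟩
      nlinarith
    · have h2 : max 1 (min Y √M) ≤ 16 * √(M / (P ^ #I) ^ 3) :=
        max_le (by linarith) ((min_le_left _ _).trans hY)
      have h3 := pow_le_pow_left₀ (by positivity) h2 2
      rw [mul_pow, Real.sq_sqrt (by positivity)] at h3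
      refine (mul_le_mul_of_nonneg_left h3 (by linarith)).trans (le_of_eq ?_)
      field_simp
      norm_num

theorem log_le {Z ε hi : ℝ} (hZ : 2 ≤ Z) (hε : 0 < ε) (h0 : 0 < hi) (h : hi ≤ Z ^ 3) :
    1 + Real.log (hi / Z⁻¹) ≤ (1 + 16 / ε) * Z ^ (ε / 4) := by
  have h1 : Real.log (hi / Z⁻¹) ≤ 4 * Real.log Z := by
    rw [div_inv_eq_mul, show (4 : ℝ) = (4 : ℕ) by norm_num, ← Real.log_pow]
    exact Real.log_le_log (by positivity) (by nlinarith)
  have h2 := Real.log_le_rpow_div (show 0 ≤ Z by linarith) (show 0 < ε / 4 by positivity)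
  have h3 : 1 ≤ Z ^ (ε / 4) := Real.one_le_rpow (by linarith) (by positivity)
  have h4 : 4 * (Z ^ (ε / 4) / (ε / 4)) = 16 / ε * Z ^ (ε / 4) := by field_simp; norm_num
  linarith

end W3

open W3 in
theorem pW3 : S_Max → S_II → S_W3 := by
  rintro ⟨C₀, hC₀, HM⟩ ⟨κ, H⟩
  refine ⟨κ, fun Q hQ hQ' ε η hε hη J => ?_⟩
  obtain ⟨C, K, hC, H⟩ := H Q hQ hQ' (ε / 14) (η / 7) (by positivity) (by positivity) J
  refine ⟨2 ^ J * (C₀ ^ 2 * (1 + 16 / ε) ^ 2 * C * 13 ^ K * 17), K + 2, by positivity,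
    fun ν Z M lo P T S φ ξ₁ τ₁ ξ₂ τ₂ I hν hZ hM hMZ hP hPZ hlo hPc hT hR => ?_⟩
  have Z0 : 0 < Z := by linarith
  have Z1 : Z⁻¹ ≤ 1 := inv_le_one_of_one_le₀ (by linarith)
  have Z2 : 0 < Z⁻¹ := inv_pos.2 Z0
  have Z3 : Z ≤ Z ^ 3 := le_self_pow₀ (by linarith) three_ne_zero
  have Z7 : 16 * Z ^ 3 ≤ Z ^ 7 := by
    have := pow_le_pow_left₀ two_pos.le hZ 4
    rw [show Z ^ 7 = Z ^ 4 * Z ^ 3 by ring]
    exact mul_le_mul_of_nonneg_right (by linarith) (by positivity)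
  have e7 : ∀ a : ℝ, (Z ^ 7) ^ (a / 7) = Z ^ a := fun a => by
    rw [← Real.rpow_natCast, ← Real.rpow_mul Z0.le]
    congr 1
    push_cast
    ring
  have e1 : (Z ^ 7) ^ (ε / 14) = Z ^ (ε / 4) * Z ^ (ε / 4) := by
    rw [show ε / 14 = ε / 2 / 7 by ring, e7, ← Real.rpow_add Z0]
    congr 1
    ring
  have e2 : Z ^ ε = (Z ^ (ε / 4)) ^ 4 := by
    rw [← Real.rpow_natCast, ← Real.rpow_mul Z0.le]
    congr 1
    push_cast
    ring
  have hu : ∀ m, B1 (uL (ph ν m)) := fun m => (mul1_ph hν m).uL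
  set V := Z ^ (ε / 4) with hV
  have V0 : 0 < V := Real.rpow_pos_of_pos Z0 _
  set L := (1 + 16 / ε) * V with hL
  set b := C * (13 * (1 + T)) ^ K * (V * V) * P ^ κ * (17 * M) with hb
  rw [← sum_fiberwise_of_maps_to (g := I) (t := (range J).powerset)
    fun m hm => mem_powerset.2 (hR m hm).2.2.2.2.2.2.1]
  refine (sum_le_card_nsmul _ _ (C₀ * L * (1 + T) * (C₀ * L * (1 + T) * b))
    fun A hA => ?_).trans (le_of_eq ?_)
  swap
  · rw [card_powerset, card_range, nsmul_eq_mul, hb, hL, e2, mul_pow]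
    push_cast
    ring
  set s := (Rows Q M).filter fun m => I m = A with hs
  rcases s.eq_empty_or_nonempty with h0 | h0
  · rw [h0, sum_empty]
    positivity
  have hA' := mem_powerset.1 hA
  have D0 : 0 < P ^ #A := by positivity
  have hr : ∀ m ∈ s, m ∈ Rows Q M := fun m hm => (mem_filter.1 hm).1
  obtain ⟨hi, i1, i2, i3, i4⟩ := range_hi hZ hM hMZ hP A s h0 ξ₁ fun m hm =>
    ⟨(hR m (hr m hm)).2.1, (mem_filter.1 hm).2 ▸ (hR m (hr m hm)).2.2.2.2.2.2.2⟩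
  have key := HM s (fun m => ‖FF A S φ m‖ ^ 2 * ‖Lm ν m (ξ₁ m) (τ₁ m)‖ ^ 2 / (ξ₁ m * P ^ #A))
    ξ₂ τ₂ (fun m => uL (ph ν m)) 1 Z⁻¹ (Z ^ 3) T (C₀ * L * (1 + T) * b) one_pos.le one_le_two Z2
    (by linarith) hT (by positivity) (fun m hm =>
      have h := hR m (hr m hm)
      ⟨by have := Z2.trans_le h.1; positivity, hu m, h.2.2.2.1, h.2.2.2.2.1, h.2.2.2.2.2.1⟩)
    fun Y₂ t₂ y1 y2 y3 => by
      have Y0 : 0 < Y₂ := by linarith
      have k1 := HM s (fun m => ‖FF A S φ m‖ ^ 2 * ‖Lm ν m Y₂ t₂‖ ^ 2 / P ^ #A) ξ₁ τ₁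
        (fun m => uL (ph ν m)) 1 Z⁻¹ hi T (b * Y₂) one_pos.le one_le_two Z2 (by linarith) hT
        (by positivity) (fun m hm =>
          have h := hR m (hr m hm)
          ⟨by positivity, hu m, h.1, i3 m hm, h.2.2.1⟩)
        fun Y₁ t₁ x1 x2 x3 => by
          have X0 : 0 < Y₁ := by linarith
          have k0 := H ν (Z ^ 7) M Y₁ Y₂ lo P t₁ t₂ A S φ hν hM (by linarith) X0 (by linarith) Y0
            (by linarith) hP (by linarith) (by rwa [e7]) (hPc.mono hA')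
            (by simpa using card_le_card hA')
          have k2 := i4 Y₁ x2
          calc _ = (∑ m ∈ s, ‖FF A S φ m‖ ^ 2 * ‖Lm ν m Y₁ t₁‖ ^ 2 * ‖Lm ν m Y₂ t₂‖ ^ 2) /
                P ^ #A := by
                rw [sum_div]
                exact sum_congr rfl fun m _ => by rw [← Lm]; ring
            _ ≤ b * (Y₁ * Y₂ * P ^ #A) / P ^ #A := by
                refine div_le_div_of_nonneg_right (((sum_le_sum_of_subset_of_nonneg hr
                  fun _ _ _ => by positivity).trans k0).trans ?_) D0.le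
                rw [hb, e1, mul_assoc _ (17 * M)]
                gcongr <;> linarith
            _ = _ := by rw [Real.rpow_one]; field_simp
      calc _ = ∑ m ∈ s, ‖FF A S φ m‖ ^ 2 * ‖Lm ν m Y₂ t₂‖ ^ 2 / P ^ #A *
            (‖Wsum (uL (ph ν m)) (ξ₁ m) (τ₁ m)‖ ^ 2 / ξ₁ m ^ (1 : ℝ)) :=
            sum_congr rfl fun m _ => by rw [Real.rpow_one, ← Lm, ← Lm]; ring
        _ ≤ C₀ * L * (1 + T) * (b * Y₂) := by
            refine k1.trans ?_
            have := log_le hZ hε (by linarith) i2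
            gcongr
        _ = _ := by rw [Real.rpow_one]; ring
  calc _ = _ := sum_congr rfl fun m hm => by
        rw [(mem_filter.1 hm).2, Real.rpow_one, ← Lm]; ring
    _ ≤ _ := key
    _ ≤ _ := by
        have := log_le hZ hε (by positivity) (le_refl (Z ^ 3))
        gcongr

end Pool.Agent.P.MP_323ce2_nt.QX
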