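import Pool.Agent.P.MP_323ce2_nt.QX.Main
import Pool.Agent.P.MP_323ce2_nt.QX.Max
import Pool.Agent.P.MP_323ce2_nt.QX.Up
import Pool.Agent.P.MP_323ce2_nt.QX.W1
import Pool.Agent.P.MP_323ce2_nt.QX.W2
import Pool.Agent.P.MP_323ce2_nt.QX.W3
import Pool.Agent.P.MP_323ce2_nt.QX.Lam
import Pool.Agent.P.MP_323ce2_nt.QX.Br
import Pool.Agent.P.MP_323ce2_nt.QX.Rec
import Pool.Agent.P.MP_323ce2_nt.QP.LP3
import Pool.Agent.P.MP_323ce2_nt.QZ.All
import Pool.Agent.P.MP_323ce2_nt.QZ.Row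

/-! The three moment layers give the bound for the Mertens function. -/

namespace Pool.Agent.P.MP_323ce2_nt.QX

theorem asm (h1 : S_T1) (h2 : S_II) (h3 : S_FM) :
    ∃ D : ℝ, ∀ x : ℝ, 1 ≤ x → |QZ.Mf x| ≤ D * x ^ (4371 / 5000 : ℝ) :=
  main (θ := 437099 / 500000) (by norm_num) (by norm_num) (by norm_num) (by norm_num) (by norm_num)
    (by norm_num) (by norm_num) (by norm_num) QP.pLP pSub (pW1 pMax h1) (pW2 pMax (pUp h1))
    (pW3 pMax h2) QZ.pRow h3 pLam pBrL pBrF pRec QZ.fin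

end Pool.Agent.P.MP_323ce2_nt.QX
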