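import Pool.Agent.P.MP_323ce2_nt.QX.Pt

/-! The sum of the majorants over the rows of one family. -/

namespace Pool.Agent.P.MP_323ce2_nt.QX

open Finset Pool.Agent.P.MP_26a8c3_nt.QO Pool.Agent.P.MP_323ce2_nt.QF Pt

lemma isNu_cop (Q : O) : IsNu Q (cop Q) := by
  refine ⟨cop_of isCoprime_one_left, fun a b => ?_, fun x y => ?_, fun a h => cop_of_not h,
    fun a => ?_⟩
  · unfold cop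
    by_cases h1 : IsCoprime a Q <;> by_cases h2 : IsCoprime b Q <;>
      simp [IsCoprime.mul_left_iff, h1, h2]
  · rintro ⟨c, hc⟩
    rw [show x = y + Q * c by linear_combination hc]
    by_cases h : IsCoprime y Q
    · rw [cop_of h, cop_of (h.add_mul_left_left c)]
    · rw [cop_of_not h, cop_of_not fun h' => h h'.of_add_mul_left_left]
  · unfold cop; split_ifs <;> simp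

lemma Wit.three {Z M P T v : ℝ} {J : ℕ} {f : ℕ → ℝ} {A L : ℝ → ℝ → ℝ} (h : Wit Z M P T J f A L v)
    (hZ : 1 ≤ Z) (hM1 : 1 ≤ M) (hM : M ≤ Z) (hP : 0 < P) (hT : 0 ≤ T) :
    ∃ (ξ τ : ℝ) (I : Finset ℕ) (ξ' τ' ξ₁ τ₁ ξ₂ τ₂ : ℝ) (I' : Finset ℕ),
      (Z⁻¹ ≤ ξ ∧ |τ| ≤ T ∧ I ⊆ range J ∧ ξ * P ^ (2 * #I) ≤ M ∧
        (I = ∅ ∨ 16 * P ^ (4 * #I) ≤ ξ)) ∧ (M ≤ ξ' ∧ ξ' ≤ Z ^ 3 ∧ |τ'| ≤ T) ∧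
      (Z⁻¹ ≤ ξ₁ ∧ ξ₁ ≤ Z ^ 3 ∧ |τ₁| ≤ T ∧ Z⁻¹ ≤ ξ₂ ∧ ξ₂ ≤ Z ^ 3 ∧ |τ₂| ≤ T ∧ I' ⊆ range J ∧
        (I' = ∅ ∨ P ^ (3 * #I') * max 1 ξ₁ ^ 2 ≤ M)) ∧
      v ≤ (∏ i ∈ I, f i) ^ 2 * A ξ τ ^ 2 / (ξ * P ^ #I) +
        M ^ (5 / 6 : ℝ) * (A ξ' τ' ^ 2 / ξ' ^ (11 / 6 : ℝ)) +
        (∏ i ∈ I', f i) ^ 2 * L ξ₁ τ₁ ^ 2 * L ξ₂ τ₂ ^ 2 / (ξ₁ * ξ₂ * P ^ #I') := by
  have Z0 : 0 < Z := by linarith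
  have M0 : 0 < M := by linarith
  have a1 : Z⁻¹ ≤ 1 := inv_le_one_of_one_le₀ hZ
  have a2 : 1 ≤ Z ^ 3 := one_le_pow₀ hZ
  have a3 : M ≤ Z ^ 3 := hM.trans (le_self_pow₀ hZ three_ne_zero)
  have a4 : |(0 : ℝ)| ≤ T := by simpa using hT
  have d1 : Z⁻¹ ≤ 1 ∧ |(0 : ℝ)| ≤ T ∧ ∅ ⊆ range J ∧ 1 * P ^ (2 * #(∅ : Finset ℕ)) ≤ M ∧
      ((∅ : Finset ℕ) = ∅ ∨ 16 * P ^ (4 * #(∅ : Finset ℕ)) ≤ 1) :=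
    ⟨a1, a4, empty_subset _, by simpa using hM1, Or.inl rfl⟩
  have d3 : Z⁻¹ ≤ 1 ∧ 1 ≤ Z ^ 3 ∧ |(0 : ℝ)| ≤ T ∧ Z⁻¹ ≤ 1 ∧ 1 ≤ Z ^ 3 ∧ |(0 : ℝ)| ≤ T ∧
      ∅ ⊆ range J ∧ ((∅ : Finset ℕ) = ∅ ∨ P ^ (3 * #(∅ : Finset ℕ)) * max 1 (1 : ℝ) ^ 2 ≤ M) :=
    ⟨a1, a2, a4, a1, a2, a4, empty_subset _, Or.inl rfl⟩
  rcases h with ⟨ξ, τ, I, h, hv⟩ | ⟨ξ, τ, h, hv⟩ | ⟨ξ₁, τ₁, ξ₂, τ₂, I, h, hv⟩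
  · exact ⟨ξ, τ, I, M, 0, 1, 0, 1, 0, ∅, h, ⟨le_rfl, a3, a4⟩, d3,
      hv.trans (by rw [add_assoc]; exact le_add_of_nonneg_right (by positivity))⟩
  · exact ⟨1, 0, ∅, ξ, τ, 1, 0, 1, 0, ∅, d1, h, d3, hv.trans
      ((le_add_of_nonneg_left (by positivity)).trans (le_add_of_nonneg_right (by positivity)))⟩
  · exact ⟨1, 0, ∅, M, 0, ξ₁, τ₁, ξ₂, τ₂, I, d1, ⟨le_rfl, a3, a4⟩, h,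
      hv.trans (le_add_of_nonneg_left (by positivity))⟩

/-- the data of one row -/
def RowOK (ν : O → ℂ) (Z ε P : ℝ) (J : ℕ) (S : ℕ → Finset O) (φ : O → ℝ) (m : O) (β Λ : ℝ) : Prop :=
  1 / 2 ≤ β ∧ β ≤ 1 ∧ (∀ i < J, ‖F1 (S i) φ m‖ ≤ Z ^ ε * P ^ β) ∧ 1 ≤ Λ ∧
    (∃ Y₀ : ℝ, Z⁻¹ ≤ Y₀ ∧ Y₀ ≤ Z ∧ Λ ^ 2 * Y₀ ≤ Z ^ ε * ‖Lm ν m Y₀ 0‖ ^ 2) ∧
    (β ≤ 1 / 2 + ε ∨ ∃ t : ℝ, |t| ≤ Z ^ ε ∧ ∀ U : ℝ, Z ^ ε ≤ U → U ≤ Z ^ 3 →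
      ∃ X₁ X₂ : ℝ, Z ^ (-ε) ≤ X₁ ∧ X₁ ≤ U ∧ Z ^ (-ε) ≤ X₂ ∧ X₂ ≤ Z ^ 3 ∧ U ≤ Z ^ ε * (X₁ * X₂) ∧
        X₁ ^ β ≤ Z ^ ε * ‖A ν 1 m X₁ t‖ ∧ X₂ ^ β ≤ Z ^ ε * ‖Lm ν m X₂ t‖)

theorem fam {d a : ℝ} (hLP : S_LP d a) (hS : S_Sub) (h1 : S_W1) (h2 : S_W2) (h3 : S_W3) (ha : 0 ≤ a)
    (hd0 : 0 < d) (hd1 : d ≤ 1 / 4) : ∃ κ : ℕ, ∀ Q : O, Q ≠ 0 → 36 ∣ Q → ∀ e : ℝ, 0 < e →
    e ≤ 1 / 100 → ∀ J : ℕ, 0 < J → d / J ≤ e → ∃ C ε₀ : ℝ, 0 < C ∧ 0 < ε₀ ∧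
    ∀ (ν : O → ℂ) (ε Z M lo : ℝ) (S : ℕ → Finset O) (φ β Λ : O → ℝ), IsNu Q ν → 0 < ε → ε ≤ ε₀ →
      2 ≤ Z → 16 ≤ Z ^ ε → 1 ≤ M → M ≤ Z → Pc Q lo (Z ^ (d / J)) (range J) S φ →
      Z ^ (d / J) ≤ Z ^ ε * lo →
      (∀ m ∈ Rows Q M, RowOK ν Z ε (Z ^ (d / J)) J S φ m (β m) (Λ m)) →
      ∑ m ∈ Rows Q M, (Z ^ (5 / 4 : ℝ)) ^ β m *
          (∏ i ∈ range J, max √(Z ^ (d / J)) ‖F1 (S i) φ m‖) * Λ m ≤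
        C * Z ^ (5 / 8 + d / 2 + 2 / 3 + a + 30 * e) * (Z ^ (d / J)) ^ κ * M ^ (1 / 3 : ℝ) := by
  obtain ⟨κ₁, h1⟩ := h1
  obtain ⟨κ₃, h3⟩ := h3
  refine ⟨κ₁ + κ₃, fun Q hQ h36 e he he1 J hJ hdJ => ?_⟩
  have hJ' : (0 : ℝ) < J := by exact_mod_cast hJ
  set π := d / J with hπd
  have hπ : 0 < π := by positivity
  obtain ⟨C₁, K₁, hC₁, h1⟩ := h1 Q hQ h36 e (π / 2) he (by positivity) J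
  obtain ⟨C₂, K₂, hC₂, h2⟩ := h2 Q hQ h36 e he
  obtain ⟨C₃, K₃, hC₃, h3⟩ := h3 Q hQ h36 e (π / 2) he (by positivity) J
  set K := K₁ + K₂ + K₃ + 1 with hK
  have hK0 : (0 : ℝ) < K := by positivity
  refine ⟨C₁ + C₂ + C₃, min (min (π / 10) (e * π)) (e / (2 * K)), by positivity, by positivity,
    fun ν ε Z M lo S φ β Λ hν hε hε0 hZ h16 hM1 hM hPc hlo hR => ?_⟩
  have e1 : ε ≤ π / 10 := hε0.trans ((min_le_left _ _).trans (min_le_left _ _))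
  have e2 : ε ≤ e * π := hε0.trans ((min_le_left _ _).trans (min_le_right _ _))
  have e3 : ε * (2 * K) ≤ e := (le_div_iff₀ (by positivity)).1 (hε0.trans (min_le_right _ _))
  have e4 : J * ε ≤ e * d := by
    rw [hπd, ← mul_div_assoc, le_div_iff₀ hJ'] at e2; linarith
  have hZ1 : 1 < Z := by linarith
  have Z0 : 0 < Z := by linarith
  have M0 : 0 < M := by linarith
  have h0 : ∀ s : ℝ, 0 < Z ^ s := fun s => Real.rpow_pos_of_pos Z0 s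
  have hP1 : 1 ≤ Z ^ π := Real.one_le_rpow hZ1.le hπ.le
  have hPZ : Z ^ π ≤ Z := by
    nth_rw 2 [← Real.rpow_one Z]; rw [le hZ1]; linarith
  obtain ⟨r, rfl, hr⟩ := ex' hZ1 hlo
  have l1 : Z ^ (π / 2) ≤ Z ^ r := by rw [le hZ1]; linarith
  have l2 : (Z ^ π) ^ 4 ≤ (Z ^ r / 4) ^ 5 := by
    refine le_trans ?_ (pow_le_pow_left₀ (by positivity)
      (div_le_div_of_nonneg_left (h0 r).le (by norm_num) (by linarith : 4 ≤ Z ^ ε)) 5)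
    simp only [dv hZ1, pw hZ1, le hZ1]
    push_cast; linarith
  have key : ∀ m, ∃ (v ξ τ : ℝ) (I : Finset ℕ) (ξ' τ' ξ₁ τ₁ ξ₂ τ₂ : ℝ) (I' : Finset ℕ),
      m ∈ Rows Q M → _ ∧ _ := fun m => by
    by_cases hm : m ∈ Rows Q M
    · obtain ⟨b1, b2, b3, b4, ⟨Y₀, b5, b6, b7⟩, b8⟩ := hR m hm
      obtain ⟨v, c1, c2⟩ := pt hLP hS ha hd0 hd1 (f := fun i => ‖F1 (S i) φ m‖)
        (A := fun X t => ‖A ν 1 m X t‖) (L := fun X t => ‖Lm ν m X t‖) hJ hε (by nlinarith) e4 hdJ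
        he1 hZ1 h16 hM1 hM b1 b2 b3 b4 b5 b6 (norm_nonneg _) b7 b8
      obtain ⟨ξ, τ, I, ξ', τ', ξ₁, τ₁, ξ₂, τ₂, I', c3⟩ := c1.three hZ1.le hM1 hM (h0 _) (h0 _).le
      exact ⟨v, ξ, τ, I, ξ', τ', ξ₁, τ₁, ξ₂, τ₂, I', fun _ => ⟨c2, c3⟩⟩
    · exact ⟨0, 0, 0, ∅, 0, 0, 0, 0, 0, 0, ∅, fun h => absurd h hm⟩
  choose v ξ τ I ξ' τ' ξ₁ τ₁ ξ₂ τ₂ I' key using key
  have g1 := h1 ν Z M _ _ (Z ^ ε) S φ ξ τ I hν hZ hM1 hM hP1 hPZ l1 l2 hPc (h0 _).le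
    fun m hm => (key m hm).2.1
  have g2 := h2 ν Z M (Z ^ ε) ξ' τ' hν hZ hM1 hM (h0 _).le fun m hm => (key m hm).2.2.1
  have g3 := h3 ν Z M _ _ (Z ^ ε) S φ ξ₁ τ₁ ξ₂ τ₂ I' hν hZ hM1 hM hP1 hPZ l1 hPc (h0 _).le
    fun m hm => (key m hm).2.2.2.1
  simp only [FF, norm_prod] at g1 g3
  have hT : ∀ k : ℕ, k ≤ K → (1 + Z ^ ε) ^ k ≤ Z ^ e := fun k hk => by
    have hk' : (k : ℝ) ≤ K := by exact_mod_cast hk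
    calc _ ≤ (Z ^ ε * Z ^ ε) ^ k := by gcongr; nlinarith
      _ ≤ _ := by rw [ml hZ1, pw hZ1, le hZ1]; nlinarith
  have hk1 : (Z ^ π) ^ κ₁ ≤ (Z ^ π) ^ (κ₁ + κ₃) := pow_le_pow_right₀ hP1 (by omega)
  have hk3 : (Z ^ π) ^ κ₃ ≤ (Z ^ π) ^ (κ₁ + κ₃) := pow_le_pow_right₀ hP1 (by omega)
  have hk2 : 1 ≤ (Z ^ π) ^ (κ₁ + κ₃) := one_le_pow₀ hP1
  have t1 := hT K₁ (by omega)
  have t2 := hT K₂ (by omega)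
  have t3 := hT K₃ (by omega)
  have m1 : M ^ (5 / 6 : ℝ) * M ^ (1 / 6 : ℝ) = M := by rw [← Real.rpow_add M0]; norm_num
  have m2 : M ^ (-(2 / 3) : ℝ) * M = M ^ (1 / 3 : ℝ) := by
    rw [← Real.rpow_add_one M0.ne']; norm_num
  have sv : ∑ m ∈ Rows Q M, v m ≤ (C₁ + C₂ + C₃) * (Z ^ e * Z ^ e) * (Z ^ π) ^ (κ₁ + κ₃) * M :=
    calc _ ≤ _ := sum_le_sum fun m hm => (key m hm).2.2.2.2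
      _ ≤ C₁ * (1 + Z ^ ε) ^ K₁ * Z ^ e * (Z ^ π) ^ κ₁ * M +
          M ^ (5 / 6 : ℝ) * (C₂ * (1 + Z ^ ε) ^ K₂ * Z ^ e * M ^ (1 / 6 : ℝ)) +
          C₃ * (1 + Z ^ ε) ^ K₃ * Z ^ e * (Z ^ π) ^ κ₃ * M := by
          rw [sum_add_distrib, sum_add_distrib, ← mul_sum]
          gcongr
      _ = (C₁ * (1 + Z ^ ε) ^ K₁ * (Z ^ π) ^ κ₁ + C₂ * (1 + Z ^ ε) ^ K₂ * 1 +
          C₃ * (1 + Z ^ ε) ^ K₃ * (Z ^ π) ^ κ₃) * Z ^ e * M := by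
          linear_combination C₂ * (1 + Z ^ ε) ^ K₂ * Z ^ e * m1
      _ ≤ (C₁ * Z ^ e * (Z ^ π) ^ (κ₁ + κ₃) + C₂ * Z ^ e * (Z ^ π) ^ (κ₁ + κ₃) +
          C₃ * Z ^ e * (Z ^ π) ^ (κ₁ + κ₃)) * Z ^ e * M := by gcongr
      _ = _ := by ring
  calc _ ≤ _ := sum_le_sum fun m hm => (key m hm).1
    _ ≤ Z ^ (5 / 8 + d / 2 + 2 / 3 + a + 28 * e) * M ^ (-(2 / 3) : ℝ) *
        ((C₁ + C₂ + C₃) * (Z ^ e * Z ^ e) * (Z ^ π) ^ (κ₁ + κ₃) * M) := by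
        rw [← mul_sum]; gcongr
    _ = _ := by
        rw [← m2, show 5 / 8 + d / 2 + 2 / 3 + a + 30 * e =
          5 / 8 + d / 2 + 2 / 3 + a + 28 * e + (e + e) by ring, ← ml hZ1 _ (e + e), ← ml hZ1 e e]
        ring

end Pool.Agent.P.MP_323ce2_nt.QX
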