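import Pool.Agent.P.MP_323ce2_nt.QX.E

/-! The assembly: the layers give the bound for the Mertens function. -/

namespace Pool.Agent.P.MP_323ce2_nt.QX

open Finset Filter Pool.Agent.P.MP_26a8c3_nt.QO Pool.Agent.P.MP_323ce2_nt.QF Pt

lemma rows_mono {Q : O} {M Z : ℝ} (h : M ≤ Z) : Rows Q M ⊆ Rows Q Z := fun _ hm =>
  mem_Rows.2 ⟨(mem_Rows.1 hm).1.trans h, (mem_Rows.1 hm).2⟩

lemma sum_k {Q : O} {Z D e : ℝ} {U : O → ℝ} (hZ : 1 ≤ Z) (hD : 0 ≤ D) (he : 0 < e)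
    (h : ∀ M : ℝ, 1 ≤ M → M ≤ Z → ∑ m ∈ Rows Q M, U m ≤ D * M ^ (1 / 3 : ℝ)) :
    ∑ k ∈ (ball Z).erase 0, (N k : ℝ) * ∑ m ∈ Rows Q (Z / (N k : ℝ) ^ 6), U m ≤
      D * Z ^ (1 / 3 : ℝ) * (zt (1 + e) * Z ^ e) := by
  have Z0 : 0 < Z := by linarith
  calc _ ≤ ∑ k ∈ (ball Z).erase 0, D * Z ^ (1 / 3 : ℝ) * (N k : ℝ)⁻¹ := by
        refine sum_le_sum fun k hk => ?_
        have h1 := one_le_N (mem_erase.1 hk).1
        have h0 : (0 : ℝ) < N k := by linarith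
        rcases le_or_gt 1 (Z / (N k : ℝ) ^ 6) with c | c
        · have h2 := h _ c (div_le_self Z0.le (one_le_pow₀ h1))
          rw [Real.div_rpow Z0.le (by positivity), show ((N k : ℝ) ^ 6) ^ (1 / 3 : ℝ) = (N k : ℝ) ^ 2 by
            rw [← Real.rpow_natCast_mul h0.le, ← Real.rpow_two]; norm_num] at h2
          refine (mul_le_mul_of_nonneg_left h2 h0.le).trans (le_of_eq ?_)
          field_simp
        · rw [show Rows Q (Z / (N k : ℝ) ^ 6) = ∅ from eq_empty_of_forall_notMem fun m hm => by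
            linarith [(mem_Rows.1 hm).1, one_le_N (mem_Rows.1 hm).2.1], sum_empty, mul_zero]
          positivity
    _ ≤ _ := by
        rw [← mul_sum]
        gcongr
        exact (sum_le_sum_of_subset_of_nonneg (erase_subset _ _) fun _ _ _ => by positivity).trans
          (sum_inv_le he Z0.le)

theorem main {d a θ θ' : ℝ} (hd : 21 / 100 ≤ d) (hd' : d ≤ 22 / 100) (ha : 0 ≤ a)
    (hD : 11 / 12 - d / 5 < θ) (hE : (23 / 24 + a + d / 2) * (4 / 5) < θ) (hθ : θ ≤ 9 / 10)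
    (hθ1 : θ < θ') (hθ2 : θ' ≤ 1) (hLP : S_LP d a) (hS : S_Sub) (h1 : S_W1) (h2 : S_W2) (h3 : S_W3)
    (hRow : S_Row) (hFM : S_FM) (hLam : S_Lam) (hL : S_BrL) (hF : S_BrF) (hRec : S_Rec)
    (hEnd : QZ.S_End) : ∃ D : ℝ, ∀ x : ℝ, 1 ≤ x → |QZ.Mf x| ≤ D * x ^ θ' := by
  obtain ⟨κ, hfam⟩ := fam hLP hS h1 h2 h3 ha (by linarith) (by linarith)
  obtain ⟨κ₀, hFM⟩ := hFM
  obtain ⟨e, he, he1, he2, he3⟩ : ∃ e : ℝ, 0 < e ∧ e ≤ 1 / 100 ∧
      55 / 48 - d / 4 + 2 * e ≤ 5 / 4 * θ ∧ 23 / 24 + a + d / 2 + 34 * e ≤ 5 / 4 * θ := by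
    refine ⟨min (1 / 100) (min (θ - (11 / 12 - d / 5)) ((θ - (23 / 24 + a + d / 2) * (4 / 5))) / 34),
      lt_min (by norm_num) (div_pos (lt_min (by linarith) (by linarith)) (by norm_num)),
      min_le_left _ _, ?_, ?_⟩ <;>
    linarith [min_le_right (1 / 100 : ℝ)
      (min (θ - (11 / 12 - d / 5)) ((θ - (23 / 24 + a + d / 2) * (4 / 5))) / 34),
      min_le_left (θ - (11 / 12 - d / 5)) (θ - (23 / 24 + a + d / 2) * (4 / 5)),
      min_le_right (θ - (11 / 12 - d / 5)) (θ - (23 / 24 + a + d / 2) * (4 / 5))]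
  obtain ⟨J, hJ⟩ := exists_nat_gt ((κ₀ + κ + 1) / e)
  have hJ' : (0 : ℝ) < J := lt_trans (by positivity) hJ
  have hJ0 : 0 < J := by exact_mod_cast hJ'
  set π := d / J with hπd
  have hπ : 0 < π := div_pos (by linarith) hJ'
  have hdπ : π * J = d := by rw [hπd]; field_simp
  have hκ : (κ₀ + κ + 1) * π ≤ e := by
    rw [div_lt_iff₀ he] at hJ
    rw [hπd, ← mul_div_assoc, div_le_iff₀ hJ']
    have : (0 : ℝ) ≤ κ₀ + κ + 1 := by positivity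
    nlinarith
  have hκ0 : 0 ≤ κ₀ * π := by positivity
  have hκ1 : 0 ≤ κ * π := by positivity
  obtain ⟨q, hq0, hq36, hFM⟩ := hFM θ (by linarith) hθ J hJ0
  have hQ : (q : O) ≠ 0 := Nat.cast_ne_zero.2 hq0.ne'
  have hQ36 : (36 : O) ∣ q := by exact_mod_cast Nat.cast_dvd_cast (α := O) hq36
  have hν := isNu_cop (q : O)
  obtain ⟨δ, C₀, hδ, hC₀, hFM⟩ := hFM e he
  obtain ⟨C₁, ε₀, hC₁, hε₀, hfam⟩ := hfam q hQ hQ36 e he he1 J hJ0 (by linarith)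
  obtain ⟨ε, hε, e1, e2, e3⟩ : ∃ ε : ℝ, 0 < ε ∧ ε ≤ ε₀ ∧ ε ≤ δ ∧ ε * (2 * (J + 2)) ≤ e :=
    ⟨min (min ε₀ δ) (e / (2 * (J + 2))), by positivity, (min_le_left _ _).trans (min_le_left _ _),
      (min_le_left _ _).trans (min_le_right _ _), (le_div_iff₀ (by positivity)).1 (min_le_right _ _)⟩
  obtain ⟨C₂, -, hRow⟩ := hRow q hQ hQ36 ε π hε hπ J
  obtain ⟨C₃, hC₃, hLam⟩ := hLam
  obtain ⟨C₄, hC₄, hL⟩ := hL (ε / 10) (by positivity)
  obtain ⟨C₅, hC₅, hF⟩ := hF (ε / 10) (by positivity)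
  obtain ⟨Z₀, hZ₀⟩ := eventually_atTop.1 (((eventually_ge_atTop (2 + C₀ + |C₂| + C₃))).and
    ((tendsto_rpow_atTop hε).eventually_ge_atTop (16 + C₃ + C₄ + C₅)))
  refine hEnd θ θ' q (by linarith) hθ1 hθ2 hq0 hq36 (hRec (uA (cop q) 1 1) θ
    (max Z₀ 1 ^ (5 / 4 : ℝ)) (C₀ * (1 + C₁ * zt (1 + e)))
    (QZ.uA_eq _ _ ▸ (mul1_ph hν 1).uM) (by linarith) (by linarith)
    (by have := zt_nonneg (1 + e); positivity) fun X B hX hX1 hB hrec => ?_)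
  obtain ⟨Z, rfl, Z1⟩ : ∃ Z : ℝ, X = Z ^ (5 / 4 : ℝ) ∧ max Z₀ 1 ≤ Z := by
    refine ⟨X ^ (4 / 5 : ℝ), by rw [← Real.rpow_mul (by linarith)]; norm_num, ?_⟩
    refine le_trans (le_of_eq ?_) (Real.rpow_le_rpow (by positivity) hX (by norm_num))
    rw [← Real.rpow_mul (by positivity)]; norm_num
  obtain ⟨z1, z2⟩ := hZ₀ Z ((le_max_left _ _).trans Z1)
  have z3 := le_abs_self C₂
  have z4 := abs_nonneg C₂
  have hZ : 1 < Z := by linarith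
  have Z0 : 0 < Z := by linarith
  have h0 : ∀ s : ℝ, 0 < Z ^ s := fun s => Real.rpow_pos_of_pos Z0 s
  have hP1 : 1 ≤ Z ^ π := Real.one_le_rpow hZ.le hπ.le
  obtain ⟨lo, S, φ, hPc, hlo, hmass, hrow⟩ := hRow Z (Z ^ π) (by linarith) le_rfl
    (by nth_rw 2 [← Real.rpow_one Z]; rw [le hZ]; linarith)
  choose! β hβ using hrow
  choose Λ Y₀ hΛ using fun m => hLam (ph (cop q) m) Z (mul1_ph hν m) (by linarith)
  have hεδ : Z ^ ε ≤ Z ^ δ := (le hZ _ _).2 e2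
  have hlo0 : 0 ≤ lo := ((pos_iff_pos_of_mul_pos ((h0 π).trans_le hlo)).1 (h0 ε)).le
  have hNk : ∀ k : O, (N k : ℝ) ≤ Z ^ 10 → (N k : ℝ) ^ (ε / 10) ≤ Z ^ ε := fun k hk =>
    (Real.rpow_le_rpow (by positivity) hk (by positivity)).trans (le_of_eq (by
      rw [← Real.rpow_natCast, rp hZ]; congr 1; push_cast; ring))
  have hB2 : Z ^ (2 * ε) = Z ^ ε * Z ^ ε := by rw [ml hZ, two_mul]
  have hε1 : 1 ≤ Z ^ ε := by linarith
  have hfm := hFM Z _ lo (Z ^ π) B (Z ^ (2 * ε)) S φ β Λ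
    (fun i m => max √(Z ^ π) ‖F1 (S i) φ m‖) (by linarith) rfl hP1
    (by rw [pw hZ, le hZ]; linarith) (by rw [pw hZ, le hZ]; linarith) hPc
    (hlo.trans (by gcongr)) (fun i hi => (hmass i hi).trans
      (mul_le_mul_of_nonneg_right hεδ (sum_nonneg fun p _ => hPc.w0 p)))
    (Real.one_le_rpow hZ.le (by linarith)) hB hrec fun m hm =>
    ⟨(hβ m hm).1, (hβ m hm).2.1, (hΛ m).1, fun _ _ => le_max_left _ _, fun k hk0 hk =>
      ⟨fun X' a1 a2 => ((hβ m hm).2.2.2.1 k hk0 hk X' a1 (a2.trans (by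
          rw [← Real.rpow_two, le hZ]; norm_num))).trans (by
          gcongr
          · exact hZ.le
          · linarith), fun i hi => by
        have a1 := hF (S i) φ m k hk0 fun p hp =>
          have a := hPc.pr i (mem_range.2 hi) p hp
          ⟨a.1, a.2.1, hPc.w0 p, hPc.w1 p⟩
        have a2 : 1 ≤ max √(Z ^ π) ‖F1 (S i) φ m‖ := le_max_of_le_left (Real.one_le_sqrt.2 hP1)
        have a3 := hNk k hk
        calc _ ≤ 1 * max √(Z ^ π) ‖F1 (S i) φ m‖ + C₅ * Z ^ ε * 1 := by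
              rw [one_mul, mul_one]
              exact a1.trans (add_le_add (le_max_right _ _) (by gcongr))
          _ ≤ Z ^ ε * max √(Z ^ π) ‖F1 (S i) φ m‖ + C₅ * Z ^ ε * max √(Z ^ π) ‖F1 (S i) φ m‖ := by
              gcongr
          _ = Z ^ ε * (1 + C₅) * max √(Z ^ π) ‖F1 (S i) φ m‖ := by ring
          _ ≤ _ := by rw [hB2]; gcongr; linarith, fun Y a1 a2 => by
        have a3 := hNk k hk
        have a4 : 0 ≤ Λ m := by linarith [(hΛ m).1]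
        refine (hL (cop q) q m k Z (Λ m) hν hk0 a4 (hΛ m).2.2.2.2 Y a1 a2).trans ?_
        rw [hB2]; gcongr; linarith⟩⟩
  have hs := sum_k hZ.le (by positivity) he fun M a1 a2 => hfam (cop q) ε Z M lo S φ β Λ hν hε e1
    (by linarith) (by linarith) a1 a2 hPc hlo fun m hm =>
      have b := hβ m (rows_mono a2 hm)
      ⟨b.1, b.2.1, b.2.2.1, (hΛ m).1, ⟨Y₀ m, (hΛ m).2.1, (hΛ m).2.2.1,
        (hΛ m).2.2.2.1.trans (mul_le_mul_of_nonneg_right (by linarith) (sq_nonneg _))⟩, b.2.2.2.2⟩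
  have hz := zt_nonneg (1 + e)
  have f1 : Z ^ e * (Z ^ π) ^ κ₀ * ((Z ^ (5 / 4 : ℝ)) ^ (11 / 12 : ℝ) / ((Z ^ π) ^ J) ^ (1 / 4 : ℝ)) ≤
      (Z ^ (5 / 4 : ℝ)) ^ θ := by
    simp only [pw hZ, rp hZ, ml hZ, dv hZ, le hZ]
    linarith
  have f2 : Z ^ e * (Z ^ π) ^ κ₀ * (Z ^ (2 * ε)) ^ (J + 2) * Z ^ (-(2 / 3) : ℝ) *
      Z ^ (5 / 8 + d / 2 + 2 / 3 + a + 30 * e) * (Z ^ π) ^ κ * Z ^ (1 / 3 : ℝ) * Z ^ e ≤
      (Z ^ (5 / 4 : ℝ)) ^ θ := by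
    simp only [pw hZ, rp hZ, ml hZ, le hZ]
    push_cast; linarith
  refine hfm.trans (add_le_add le_rfl ?_)
  refine (mul_le_mul_of_nonneg_left (add_le_add le_rfl
    (mul_le_mul_of_nonneg_left hs (by positivity))) (by positivity)).trans ?_
  linarith [mul_le_mul_of_nonneg_left f1 (by linarith : 0 ≤ C₀),
    mul_le_mul_of_nonneg_left f2 (by positivity : 0 ≤ C₀ * (C₁ * zt (1 + e)))]

end Pool.Agent.P.MP_323ce2_nt.QX
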