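import Pool.Agent.P.MP_323ce2_nt.QX.St

/-! From the linear programme to a witness for one row. -/

namespace Pool.Agent.P.MP_323ce2_nt.QX

open Finset

namespace Pt

lemma ex {Z y : ℝ} (hZ : 1 < Z) (hy : 0 < y) : ∃ r : ℝ, y = Z ^ r :=
  ⟨Real.logb Z y, (Real.rpow_logb (by linarith) hZ.ne' hy).symm⟩

lemma pw {Z : ℝ} (hZ : 1 < Z) (r : ℝ) (n : ℕ) : (Z ^ r) ^ n = Z ^ (r * n) :=
  (Real.rpow_mul_natCast (by linarith) r n).symm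

lemma rp {Z : ℝ} (hZ : 1 < Z) (r s : ℝ) : (Z ^ r) ^ s = Z ^ (r * s) :=
  (Real.rpow_mul (by linarith) r s).symm

lemma ml {Z : ℝ} (hZ : 1 < Z) (r s : ℝ) : Z ^ r * Z ^ s = Z ^ (r + s) :=
  (Real.rpow_add (by linarith) r s).symm

lemma dv {Z : ℝ} (hZ : 1 < Z) (r s : ℝ) : Z ^ r / Z ^ s = Z ^ (r - s) :=
  (Real.rpow_sub (by linarith) r s).symm

lemma le {Z : ℝ} (hZ : 1 < Z) (r s : ℝ) : Z ^ r ≤ Z ^ s ↔ r ≤ s := Real.rpow_le_rpow_left_iff hZ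

lemma ex' {Z y ε r : ℝ} (hZ : 1 < Z) (h : Z ^ r ≤ Z ^ ε * y) : ∃ s : ℝ, y = Z ^ s ∧ r ≤ ε + s := by
  have h0 : ∀ s : ℝ, 0 < Z ^ s := fun s => Real.rpow_pos_of_pos (by linarith) s
  obtain ⟨s, rfl⟩ := ex hZ ((pos_iff_pos_of_mul_pos ((h0 r).trans_le h)).1 (h0 ε))
  exact ⟨s, rfl, by rwa [ml hZ, le hZ] at h⟩

/-- the choice of a set of pieces of total length at most `r` -/
lemma pcs (hS : S_Sub) {Z π q e r : ℝ} {J : ℕ} {f x : ℕ → ℝ} (hZ : 1 < Z) (hJ : 0 < J) (hπ : 0 < π)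
    (hπe : π ≤ e) (hq : 0 ≤ q) (hq1 : q ≤ 1) (hr : r ≤ π * J) (hx : ∀ i, 0 ≤ x i)
    (hf : ∀ i, 0 < x i → f i = Z ^ (π / 2 + x i)) (hs : ∑ i ∈ range J, x i = q * (π * J)) :
    ∃ I ⊆ range J, (I = ∅ ∨ 0 < r ∧ π * #I ≤ r) ∧
      ∃ y : ℝ, ∏ i ∈ I, f i = Z ^ (π / 2 * #I + y) ∧ q * r - e ≤ y := by
  have hj : ⌊r / π⌋₊ ≤ J := Nat.floor_le_of_le (by rw [div_le_iff₀ hπ]; linarith)
  obtain ⟨I, h1, h2, h3, h4⟩ := hS J _ x hj hx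
  have h5 := Nat.lt_floor_add_one (r / π)
  rw [div_lt_iff₀ hπ] at h5
  have hJ' : (0 : ℝ) < J := by exact_mod_cast hJ
  refine ⟨I, h1, ?_, ∑ i ∈ I, x i, ?_, ?_⟩
  · rcases le_or_gt r 0 with h | h
    · rw [Nat.floor_of_nonpos (div_nonpos_of_nonpos_of_nonneg h hπ.le)] at h2
      exact Or.inl (card_eq_zero.1 (Nat.le_zero.1 h2))
    · have h6 := Nat.floor_le (div_pos h hπ).le
      rw [le_div_iff₀ hπ] at h6
      have h7 : (#I : ℝ) ≤ ⌊r / π⌋₊ := by exact_mod_cast h2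
      exact Or.inr ⟨h, by nlinarith⟩
  · rw [prod_congr rfl fun i hi => hf i (h3 i hi), ← Real.rpow_sum_of_pos (by linarith),
      sum_add_distrib, sum_const, nsmul_eq_mul, mul_comm]
  · rw [hs] at h4
    have h6 : ⌊r / π⌋₊ * (q * π) ≤ ∑ i ∈ I, x i := le_of_mul_le_mul_left (by linarith) hJ'
    nlinarith [mul_nonneg hq (sub_pos.2 h5).le, mul_nonneg (sub_nonneg.2 hq1) hπ.le]

end Pt

open Pt

/-- one of the three kinds of witnesses has size at least `v` -/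
def Wit (Z M P T : ℝ) (J : ℕ) (f : ℕ → ℝ) (A L : ℝ → ℝ → ℝ) (v : ℝ) : Prop :=
  (∃ (ξ τ : ℝ) (I : Finset ℕ), (Z⁻¹ ≤ ξ ∧ |τ| ≤ T ∧ I ⊆ range J ∧ ξ * P ^ (2 * #I) ≤ M ∧
      (I = ∅ ∨ 16 * P ^ (4 * #I) ≤ ξ)) ∧ v ≤ (∏ i ∈ I, f i) ^ 2 * A ξ τ ^ 2 / (ξ * P ^ #I)) ∨
  (∃ ξ τ : ℝ, (M ≤ ξ ∧ ξ ≤ Z ^ 3 ∧ |τ| ≤ T) ∧
      v ≤ M ^ (5 / 6 : ℝ) * (A ξ τ ^ 2 / ξ ^ (11 / 6 : ℝ))) ∨
  ∃ (ξ₁ τ₁ ξ₂ τ₂ : ℝ) (I : Finset ℕ), (Z⁻¹ ≤ ξ₁ ∧ ξ₁ ≤ Z ^ 3 ∧ |τ₁| ≤ T ∧ Z⁻¹ ≤ ξ₂ ∧ ξ₂ ≤ Z ^ 3 ∧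
      |τ₂| ≤ T ∧ I ⊆ range J ∧ (I = ∅ ∨ P ^ (3 * #I) * max 1 ξ₁ ^ 2 ≤ M)) ∧
      v ≤ (∏ i ∈ I, f i) ^ 2 * L ξ₁ τ₁ ^ 2 * L ξ₂ τ₂ ^ 2 / (ξ₁ * ξ₂ * P ^ #I)

theorem pt {d a : ℝ} (hLP : S_LP d a) (hS : S_Sub) (ha : 0 ≤ a) (hd0 : 0 < d) (hd1 : d ≤ 1 / 4)
    {J : ℕ} {e ε Z M β Λ Y₀ : ℝ} {f : ℕ → ℝ} {A L : ℝ → ℝ → ℝ} (hJ : 0 < J) (hε : 0 < ε)
    (hεe : ε ≤ e) (hJe : J * ε ≤ e * d) (hdJ : d / J ≤ e) (he : e ≤ 1 / 100) (hZ : 1 < Z)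
    (h16 : 16 ≤ Z ^ ε) (hM1 : 1 ≤ M) (hM : M ≤ Z) (hβ : 1 / 2 ≤ β) (hβ1 : β ≤ 1)
    (hf : ∀ i < J, f i ≤ Z ^ ε * (Z ^ (d / J)) ^ β) (hΛ : 1 ≤ Λ) (hY0 : Z⁻¹ ≤ Y₀) (hY1 : Y₀ ≤ Z)
    (hL0 : 0 ≤ L Y₀ 0) (hΛ2 : Λ ^ 2 * Y₀ ≤ Z ^ ε * L Y₀ 0 ^ 2)
    (hdet : β ≤ 1 / 2 + ε ∨ ∃ t : ℝ, |t| ≤ Z ^ ε ∧ ∀ U : ℝ, Z ^ ε ≤ U → U ≤ Z ^ 3 →
      ∃ X₁ X₂ : ℝ, Z ^ (-ε) ≤ X₁ ∧ X₁ ≤ U ∧ Z ^ (-ε) ≤ X₂ ∧ X₂ ≤ Z ^ 3 ∧ U ≤ Z ^ ε * (X₁ * X₂) ∧
        X₁ ^ β ≤ Z ^ ε * A X₁ t ∧ X₂ ^ β ≤ Z ^ ε * L X₂ t) :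
    ∃ v : ℝ, Wit Z M (Z ^ (d / J)) (Z ^ ε) J f A L v ∧
      (Z ^ (5 / 4 : ℝ)) ^ β * (∏ i ∈ range J, max √(Z ^ (d / J)) (f i)) * Λ ≤
        Z ^ (5 / 8 + d / 2 + 2 / 3 + a + 28 * e) * M ^ (-(2 / 3) : ℝ) * v := by
  have Z0 : 0 < Z := by linarith
  have h0 : ∀ s : ℝ, 0 < Z ^ s := fun s => Real.rpow_pos_of_pos Z0 s
  have hJ' : (0 : ℝ) < J := by exact_mod_cast hJ
  set π := d / J with hπd
  have hπ : 0 < π := by positivity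
  have hd : π * J = d := by rw [hπd]; field_simp
  have e1 : (1 : ℝ) = Z ^ (0 : ℝ) := (Real.rpow_zero Z).symm
  have eI : Z⁻¹ = Z ^ (-1 : ℝ) := (Real.rpow_neg_one Z).symm
  have e3 : Z ^ 3 = Z ^ (3 : ℝ) := by exact_mod_cast (Real.rpow_natCast Z 3).symm
  have eZ : Z = Z ^ (1 : ℝ) := (Real.rpow_one Z).symm
  obtain ⟨μ, rfl⟩ := ex hZ (by linarith : 0 < M)
  obtain ⟨l, rfl⟩ := ex hZ (by linarith : 0 < Λ)
  obtain ⟨y, rfl⟩ := ex hZ (lt_of_lt_of_le (inv_pos.2 Z0) hY0)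
  have hμ0 : 0 ≤ μ := by rwa [e1, le hZ] at hM1
  have hμ1 : μ ≤ 1 := (le hZ _ _).1 (by rwa [Real.rpow_one])
  have hl : 0 ≤ l := by rwa [e1, le hZ] at hΛ
  have hY3 : Z ^ y ≤ Z ^ 3 := hY1.trans (by rw [e3]; nth_rw 1 [eZ]; rw [le hZ]; norm_num)
  obtain ⟨y', hy', hy⟩ : ∃ y' : ℝ, L (Z ^ y) 0 = Z ^ y' ∧ 2 * l + y ≤ ε + 2 * y' := by
    rw [pw hZ, ml hZ] at hΛ2
    obtain ⟨s, hs, h⟩ := ex' hZ hΛ2
    refine ⟨s / 2, ?_, by push_cast at h; linarith⟩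
    refine (pow_left_inj₀ hL0 (h0 _).le two_ne_zero).1 ?_
    rw [hs, pw hZ]; congr 1; push_cast; ring
  have hx : ∀ i, ∃ x : ℝ, 0 ≤ x ∧ max √(Z ^ π) (f i) = Z ^ (π / 2 + x) ∧
      (0 < x → f i = Z ^ (π / 2 + x)) ∧ (i < J → x ≤ ε + (β - 1 / 2) * π) := fun i => by
    have hs : √(Z ^ π) = Z ^ (π / 2) := by rw [Real.sqrt_eq_rpow, rp hZ]; congr 1; ring
    rw [hs]
    rcases le_or_gt (f i) (Z ^ (π / 2)) with h | h
    · exact ⟨0, le_rfl, by rw [max_eq_left h, add_zero], fun h => absurd h (lt_irrefl _),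
        fun _ => by nlinarith⟩
    · obtain ⟨s, hs⟩ := ex hZ ((h0 _).trans h)
      have h1 : f i = Z ^ (π / 2 + (s - π / 2)) := by rw [hs]; congr 1; ring
      refine ⟨s - π / 2, ?_, by rw [max_eq_right h.le, h1], fun _ => h1, fun hi => ?_⟩
      · have := h.le
        rw [hs, le hZ] at this; linarith
      · have := hf i hi
        rw [hs, rp hZ, ml hZ, le hZ] at this; linarith
  choose x hx0 hx1 hx2 hx3 using hx
  obtain ⟨q, hq⟩ : ∃ q : ℝ, ∑ i ∈ range J, x i = q * (π * J) :=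
    ⟨(∑ i ∈ range J, x i) / (π * J), by field_simp⟩
  have hq0 : 0 ≤ q := by
    have := sum_nonneg fun i (_ : i ∈ range J) => hx0 i
    rw [hq, hd] at this
    exact nonneg_of_mul_nonneg_left this hd0
  obtain ⟨b, rfl⟩ : ∃ b, β = b + 1 / 2 := ⟨β - 1 / 2, by ring⟩
  have hqb : q ≤ b + e := by
    have := sum_le_sum fun i (hi : i ∈ range J) => hx3 i (mem_range.1 hi)
    rw [hq, hd, sum_const, card_range, nsmul_eq_mul] at this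
    refine le_of_mul_le_mul_right ?_ hd0
    nlinarith
  have hq1 : q ≤ 1 := by linarith
  have hqe : q * ε ≤ ε := mul_le_of_le_one_left hε.le hq1
  have hP := fun r (hr : r ≤ π * J) => pcs hS (f := f) hZ hJ hπ hdJ hq0 hq1 hr hx0 hx2 hq
  set s := l + 5 / 4 * b + q * d + μ + (1 - μ) / 3 - (1 + a) - 21 * e with hs
  refine ⟨Z ^ (s - 7 * e), ?_, le_of_eq ?_⟩
  swap
  · rw [prod_congr rfl fun i _ => hx1 i, ← Real.rpow_sum_of_pos Z0, sum_add_distrib, hq, sum_const,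
      card_range, nsmul_eq_mul]
    simp only [rp hZ, ml hZ]
    congr 1
    rw [hs, ← hd]; ring
  have w4 : s ≤ 4 * l → Wit Z (Z ^ μ) (Z ^ π) (Z ^ ε) J f A L (Z ^ (s - 7 * e)) := fun h =>
    Or.inr (Or.inr ⟨Z ^ y, 0, Z ^ y, 0, ∅, ⟨hY0, hY3, by simp [(h0 _).le], hY0, hY3,
      by simp [(h0 _).le], by simp, Or.inl rfl⟩, by
        simp only [prod_empty, one_pow, one_mul, card_empty, hy', pw hZ, ml hZ,
          dv hZ, le hZ]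
        push_cast; linarith⟩)
  have hqd : q * d ≤ (b + e) / 4 := by linarith [mul_le_mul_of_nonneg_left hd1 hq0]
  rcases hdet with h | ⟨t, ht, h⟩
  · exact w4 (by linarith)
  obtain ⟨k, hk0, hk2, hk⟩ := hLP e μ b q l (by linarith) hμ0 hμ1 (by linarith) (by linarith) hq0 hqb
  obtain ⟨X₁, X₂, a1, a2, a3, a4, a5, a6, a7⟩ := h (Z ^ (k + ε)) (by rw [le hZ]; linarith)
    (by rw [e3, le hZ]; linarith)
  obtain ⟨u, rfl⟩ := ex hZ ((h0 _).trans_le a1)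
  obtain ⟨w, rfl⟩ := ex hZ ((h0 _).trans_le a3)
  rw [rp hZ] at a6 a7
  obtain ⟨u', hu', a6⟩ := ex' hZ a6
  obtain ⟨w', hw', a7⟩ := ex' hZ a7
  simp only [ml hZ, le hZ] at a1 a2 a3 a5
  have b1 : Z⁻¹ ≤ Z ^ u := by rw [eI, le hZ]; linarith
  have b2 : Z⁻¹ ≤ Z ^ w := by rw [eI, le hZ]; linarith
  rcases le_or_gt s (4 * l) with c1 | c1
  · exact w4 c1
  rcases le_or_gt s (4 * b * w) with c2 | c2
  · refine Or.inr (Or.inr ⟨Z ^ w, t, Z ^ w, t, ∅, ⟨b2, a4, ht, b2, a4, ht, by simp, Or.inl rfl⟩, ?_⟩)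
    simp only [prod_empty, one_pow, one_mul, card_empty, hw', pw hZ, ml hZ,
      dv hZ, le hZ]
    push_cast; linarith
  rcases le_or_gt s (2 * l + 2 * b * w + 2 * q * min d (max 0 (μ - 2 * w) / 3)) with c3 | c3
  · obtain ⟨I, i1, i2, z, i3, i4⟩ := hP (min d (max 0 (μ - 2 * w) / 3) - ε)
      (by linarith [min_le_left d (max 0 (μ - 2 * w) / 3)])
    refine Or.inr (Or.inr ⟨Z ^ w, t, Z ^ y, 0, I, ⟨b2, a4, ht, hY0, hY3, by simp [(h0 _).le], i1,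
      i2.imp_right fun h => ?_⟩, ?_⟩)
    · have h1 := min_le_right d (max 0 (μ - 2 * w) / 3)
      have h2 : max 0 (μ - 2 * w) = μ - 2 * w :=
        max_eq_right (not_lt.1 fun h3 => by rw [max_eq_left h3.le] at h1 h; linarith [h.1])
      rw [h2] at h1 h
      rcases le_total 1 (Z ^ w) with h3 | h3
      · rw [max_eq_right h3]
        simp only [pw hZ, ml hZ, le hZ]
        push_cast; linarith [h.2]
      · rw [max_eq_left h3, one_pow, mul_one, pw hZ, le hZ]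
        push_cast; linarith [h.2]
    · simp only [i3, hw', hy', pw hZ, ml hZ, dv hZ, le hZ]
      push_cast; linarith
  rcases le_total u μ with c4 | c4
  · rcases le_or_gt s (2 * b * u + 2 * q * min d (min ((μ - u) / 2) (u / 4))) with c5 | c5
    · obtain ⟨I, i1, i2, z, i3, i4⟩ := hP (min d (min ((μ - u) / 2) (u / 4)) - ε)
        (by linarith [min_le_left d (min ((μ - u) / 2) (u / 4))])
      have h1 := (min_le_right d _).trans (min_le_left ((μ - u) / 2) (u / 4))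
      have h2 := (min_le_right d _).trans (min_le_right ((μ - u) / 2) (u / 4))
      refine Or.inl ⟨Z ^ u, t, I, ⟨b1, ht, i1, ?_, i2.imp_right fun h => ?_⟩, ?_⟩
      · simp only [pw hZ, ml hZ, le hZ]
        push_cast
        rcases i2 with rfl | h
        · simpa using c4
        · linarith [h.2]
      · refine (mul_le_mul_of_nonneg_right h16 (by positivity)).trans ?_
        simp only [pw hZ, ml hZ, le hZ]
        push_cast; linarith [h.2]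
      · simp only [i3, hu', pw hZ, ml hZ, dv hZ, le hZ]
        push_cast; linarith
    · rcases c4.eq_or_lt with rfl | c6
      · have h1 : 0 ≤ min d (min ((u - u) / 2) (u / 4)) :=
          le_min hd0.le (le_min (by simp) (by positivity))
        have := hk u w s (by linarith) (by linarith) (by linarith) c1.le c2.le (fun _ => c5.le)
          (fun _ => by linarith [mul_nonneg hq0 h1]) c3.le
        linarith
      · have := hk u w s (by linarith) (by linarith) (by linarith) c1.le c2.le (fun _ => c5.le)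
          (fun h => absurd h c6.not_ge) c3.le
        linarith
  · rcases le_or_gt s (2 * b * u - 5 / 6 * (u - μ)) with c5 | c5
    · refine Or.inr (Or.inl ⟨Z ^ u, t, ⟨by rwa [le hZ], by rw [e3, le hZ]; linarith, ht⟩, ?_⟩)
      simp only [hu', pw hZ, rp hZ, ml hZ, dv hZ, le hZ]
      push_cast; linarith
    · rcases c4.eq_or_lt with rfl | c6
      · have h1 : min d (min ((μ - μ) / 2) (μ / 4)) ≤ 0 :=
          (min_le_right _ _).trans ((min_le_left _ _).trans (by simp))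
        have := hk μ w s (by linarith) (by linarith) (by linarith) c1.le c2.le
          (fun _ => by linarith [mul_nonneg hq0 (neg_nonneg.2 h1)]) (fun _ => c5.le) c3.le
        linarith
      · have := hk u w s (by linarith) (by linarith) (by linarith) c1.le c2.le
          (fun h => absurd h c6.not_ge) (fun _ => c5.le) c3.le
        linarith

end Pool.Agent.P.MP_323ce2_nt.QX
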