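import Pool.Agent.P.MP_323ce2_nt.QX.Top

/-! Steps of the assembly: maximal forms of the moments, coprimality bridges, the record argument. -/

namespace Pool.Agent.P.MP_323ce2_nt.QX

open Finset Pool.Agent.P.MP_26a8c3_nt.QO Pool.Agent.P.MP_26a8c3_nt.QA
open Pool.Agent.P.MP_323ce2_nt.QF Pool.Agent.P.MP_323ce2_nt.QZ
open scoped Classical

/-- scale and height may depend on the row -/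
def S_Max : Prop :=
  ∃ C : ℝ, 0 < C ∧ ∀ (s : Finset O) (w ξ τ : O → ℝ) (u : O → O → ℂ) (α lo hi T b : ℝ),
    0 ≤ α → α ≤ 2 → 0 < lo → lo ≤ hi → 0 ≤ T → 0 ≤ b →
    (∀ m ∈ s, 0 ≤ w m ∧ B1 (u m) ∧ lo ≤ ξ m ∧ ξ m ≤ hi ∧ |τ m| ≤ T) →
    (∀ X t : ℝ, lo / 16 ≤ X → X ≤ 16 * hi → |t| ≤ T + 6 →
      ∑ m ∈ s, w m * ‖Wsum (u m) X t‖ ^ 2 ≤ b * X ^ α) →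
    ∑ m ∈ s, w m * (‖Wsum (u m) (ξ m) (τ m)‖ ^ 2 / ξ m ^ α) ≤
      C * (1 + Real.log (hi / lo)) * (1 + T) * b

/-- maximal form of the second moment with pieces -/
def S_W1 : Prop :=
  ∃ κ : ℕ, ∀ Q : O, Q ≠ 0 → 36 ∣ Q → ∀ ε η : ℝ, 0 < ε → 0 < η → ∀ J : ℕ, ∃ (C : ℝ) (K : ℕ), 0 < C ∧
    ∀ (ν : O → ℂ) (Z M lo P T : ℝ) (S : ℕ → Finset O) (φ ξ τ : O → ℝ) (I : O → Finset ℕ),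
      IsNu Q ν → 2 ≤ Z → 1 ≤ M → M ≤ Z → 1 ≤ P → P ≤ Z → Z ^ η ≤ lo → P ^ 4 ≤ (lo / 4) ^ 5 →
      Pc Q lo P (range J) S φ → 0 ≤ T → (∀ m ∈ Rows Q M, Z⁻¹ ≤ ξ m ∧ |τ m| ≤ T ∧ I m ⊆ range J ∧
        ξ m * P ^ (2 * #(I m)) ≤ M ∧ (I m = ∅ ∨ 16 * P ^ (4 * #(I m)) ≤ ξ m)) →
      ∑ m ∈ Rows Q M, ‖FF (I m) S φ m‖ ^ 2 * ‖A ν 1 m (ξ m) (τ m)‖ ^ 2 / (ξ m * P ^ #(I m)) ≤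
        C * (1 + T) ^ K * Z ^ ε * P ^ κ * M

/-- maximal form of the amplified second moment -/
def S_W2 : Prop :=
  ∀ Q : O, Q ≠ 0 → 36 ∣ Q → ∀ ε : ℝ, 0 < ε → ∃ (C : ℝ) (K : ℕ), 0 < C ∧
    ∀ (ν : O → ℂ) (Z M T : ℝ) (ξ τ : O → ℝ), IsNu Q ν → 2 ≤ Z → 1 ≤ M → M ≤ Z → 0 ≤ T →
      (∀ m ∈ Rows Q M, M ≤ ξ m ∧ ξ m ≤ Z ^ 3 ∧ |τ m| ≤ T) →
      ∑ m ∈ Rows Q M, ‖A ν 1 m (ξ m) (τ m)‖ ^ 2 / ξ m ^ (11 / 6 : ℝ) ≤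
        C * (1 + T) ^ K * Z ^ ε * M ^ (1 / 6 : ℝ)

/-- maximal form of the fourth moment with pieces -/
def S_W3 : Prop :=
  ∃ κ : ℕ, ∀ Q : O, Q ≠ 0 → 36 ∣ Q → ∀ ε η : ℝ, 0 < ε → 0 < η → ∀ J : ℕ, ∃ (C : ℝ) (K : ℕ), 0 < C ∧
    ∀ (ν : O → ℂ) (Z M lo P T : ℝ) (S : ℕ → Finset O) (φ ξ₁ τ₁ ξ₂ τ₂ : O → ℝ) (I : O → Finset ℕ),
      IsNu Q ν → 2 ≤ Z → 1 ≤ M → M ≤ Z → 1 ≤ P → P ≤ Z → Z ^ η ≤ lo → Pc Q lo P (range J) S φ →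
      0 ≤ T → (∀ m ∈ Rows Q M, Z⁻¹ ≤ ξ₁ m ∧ ξ₁ m ≤ Z ^ 3 ∧ |τ₁ m| ≤ T ∧ Z⁻¹ ≤ ξ₂ m ∧
        ξ₂ m ≤ Z ^ 3 ∧ |τ₂ m| ≤ T ∧ I m ⊆ range J ∧
        (I m = ∅ ∨ P ^ (3 * #(I m)) * max 1 (ξ₁ m) ^ 2 ≤ M)) →
      ∑ m ∈ Rows Q M, ‖FF (I m) S φ m‖ ^ 2 * ‖Lm ν m (ξ₁ m) (τ₁ m)‖ ^ 2 *
          ‖Lm ν m (ξ₂ m) (τ₂ m)‖ ^ 2 / (ξ₁ m * ξ₂ m * P ^ #(I m)) ≤
        C * (1 + T) ^ K * Z ^ ε * P ^ κ * M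

/-- the size of the plain sums of a row, attained at one scale -/
def S_Lam : Prop :=
  ∃ C : ℝ, 1 ≤ C ∧ ∀ (φ : O → ℂ) (Z : ℝ), Mul1 φ → C ≤ Z → ∃ Λ Y₀ : ℝ, 1 ≤ Λ ∧ Z⁻¹ ≤ Y₀ ∧ Y₀ ≤ Z ∧
    Λ ^ 2 * Y₀ ≤ C * ‖Wsum (uL φ) Y₀ 0‖ ^ 2 ∧
    ∀ Y : ℝ, 0 < Y → Y ≤ Z → ‖Wsum (uL φ) Y 0‖ ≤ Λ * √Y

/-- plain sums with a coprimality condition -/
def S_BrL : Prop :=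
  ∀ ε : ℝ, 0 < ε → ∃ C : ℝ, 0 < C ∧ ∀ (ν : O → ℂ) (Q m k : O) (Z Λ : ℝ), IsNu Q ν → k ≠ 0 → 0 ≤ Λ →
    (∀ Y : ℝ, 0 < Y → Y ≤ Z → ‖Lm ν m Y 0‖ ≤ Λ * √Y) →
    ∀ Y : ℝ, 0 < Y → Y ≤ Z → ‖Lm ν (m * k ^ 6) Y 0‖ ≤ C * (N k : ℝ) ^ ε * Λ * √Y

/-- pieces with a coprimality condition -/
def S_BrF : Prop :=
  ∀ ε : ℝ, 0 < ε → ∃ C : ℝ, 0 < C ∧ ∀ (S : Finset O) (φ : O → ℝ) (m k : O), k ≠ 0 →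
    (∀ p ∈ S, Prime p ∧ Primary p ∧ 0 ≤ φ p ∧ φ p ≤ 1) →
    ‖F1 S φ (m * k ^ 6)‖ ≤ ‖F1 S φ m‖ + C * (N k : ℝ) ^ ε

/-- the record argument -/
def S_Rec : Prop :=
  ∀ (u : O → ℂ) (θ X₀ C : ℝ), B1 u → 0 ≤ θ → θ ≤ 1 → 0 ≤ C →
    (∀ X B : ℝ, X₀ ≤ X → 1 ≤ X → 0 ≤ B →
      (∀ X' : ℝ, 0 < X' → X' ≤ X → ‖Wsum u X' 0‖ ≤ B * X' ^ θ) →
      ‖Wsum u X 0‖ ≤ B / 2 * X ^ θ + C * X ^ θ) →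
    ∃ D : ℝ, ∀ X : ℝ, 1 ≤ X → ‖Wsum u X 0‖ ≤ D * X ^ θ

/-- the largest pieces carry their share -/
def S_Sub : Prop :=
  ∀ (J j : ℕ) (x : ℕ → ℝ), j ≤ J → (∀ i, 0 ≤ x i) →
    ∃ I ⊆ range J, #I ≤ j ∧ (∀ i ∈ I, 0 < x i) ∧ j * ∑ i ∈ range J, x i ≤ J * ∑ i ∈ I, x i

end Pool.Agent.P.MP_323ce2_nt.QX
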